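import Pool.Agent.H61.SF.Conj

/-!
# Averages along the trajectories of a flow, weighted time

Used for MP_b11560_gt.
-/

set_option autoImplicit false

open MeasureTheory Filter Topology Set Metric

namespace Pool.Agent.H61.SF

/-- the cocycle of the iterates -/
noncomputable def tk {S : Type} (f : S → S) (τ : S → ℝ) : ℕ → S → ℝ
  | 0, _ => 0
  | k + 1, x => tk f τ k x + τ (f^[k] x)

/-- weighted time -/
noncomputable def wt {S : Type} (φ : ℝ → S → S) (χ : S → ℝ) (K t : ℝ) (x : S) : ℝ :=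
  t + K * coc φ χ t x

section tkl

variable {S : Type} [TopologicalSpace S] {φ : ℝ → S → S} {f : S → S} {τ : S → ℝ}

theorem tk_iter (h : IsFlow φ) (hf : ∀ x, f x = φ (τ x) x) (k : ℕ) (x : S) :
    f^[k] x = φ (tk f τ k x) x := by
  induction k with
  | zero => exact (h.zero x).symm
  | succ k ih =>
    rw [Function.iterate_succ_apply', hf]
    change φ (τ (f^[k] x)) (f^[k] x) = φ (tk f τ k x + τ (f^[k] x)) x
    rw [add_comm, h.add, ← ih]

theorem tk_cont (hfc : Continuous f) (hτ : Continuous τ) (k : ℕ) : Continuous (tk f τ k) := by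
  induction k with
  | zero => exact continuous_const
  | succ k ih => exact ih.add (hτ.comp (hfc.iterate k))

omit [TopologicalSpace S] in
theorem tk_shift (k : ℕ) (x : S) : tk f τ (k + 1) x = τ x + tk f τ k (f x) := by
  induction k with
  | zero => simp [tk]
  | succ k ih =>
    change tk f τ (k + 1) x + τ (f^[k + 1] x) = τ x + (tk f τ k (f x) + τ (f^[k] (f x)))
    rw [ih, Function.iterate_succ_apply]
    ring

omit [TopologicalSpace S] in
theorem tk_bound {m : ℝ} (hm : ∀ x, |τ x| ≤ m) (k : ℕ) (x : S) : |tk f τ k x| ≤ k * m := by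
  induction k with
  | zero => simp [tk]
  | succ k ih =>
    have h1 := abs_add_le (tk f τ k x) (τ (f^[k] x))
    have h2 := hm (f^[k] x)
    change |tk f τ k x + τ (f^[k] x)| ≤ _
    push_cast
    linarith

theorem inc_one (h : IsFlow φ) (hfi : Function.Injective f) (hτ : Continuous τ)
    (hf : ∀ x, f x = φ (τ x) x) {m : ℝ} (hm : ∀ x, |τ x| ≤ m) (x : S) :
    StrictMono (fun t => t + τ (φ t x)) := by
  have hc : Continuous (fun t => t + τ (φ t x)) := continuous_id.add (hτ.comp (h.cont2 x))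
  have hinj : Function.Injective (fun t => t + τ (φ t x)) := by
    intro s t hst
    simp only at hst
    have e : ∀ r, f (φ r x) = φ (r + τ (φ r x)) x := fun r => by
      rw [hf, add_comm r, h.add]
    have h1 : φ s x = φ t x := hfi (by rw [e, e, hst])
    rw [h1] at hst
    linarith
  rcases hc.strictMono_of_inj hinj with h1 | h1
  · exact h1
  · exfalso
    have hm0 : 0 ≤ m := (abs_nonneg _).trans (hm x)
    have h2 : 2 * m + 1 + τ (φ (2 * m + 1) x) < 0 + τ (φ 0 x) :=
      h1 (show (0 : ℝ) < 2 * m + 1 by linarith)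
    have h3 := (abs_le.1 (hm (φ (2 * m + 1) x))).1
    have h4 := (abs_le.1 (hm (φ 0 x))).2
    linarith

theorem inc_k (h : IsFlow φ) (hfi : Function.Injective f) (hτ : Continuous τ)
    (hf : ∀ x, f x = φ (τ x) x) {m : ℝ} (hm : ∀ x, |τ x| ≤ m) (k : ℕ) (x : S) :
    StrictMono (fun t => t + tk f τ k (φ t x)) := by
  induction k with
  | zero =>
    intro s t hst
    simpa [tk] using hst
  | succ k ih =>
    have h1 := inc_one h hfi hτ hf hm x
    have h2 : (fun t => t + tk f τ (k + 1) (φ t x))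
        = (fun t => t + τ (φ t x)) ∘ (fun t => t + tk f τ k (φ t x)) := by
      funext t
      change t + (tk f τ k (φ t x) + τ (f^[k] (φ t x)))
        = (t + tk f τ k (φ t x)) + τ (φ (t + tk f τ k (φ t x)) x)
      rw [tk_iter h hf k (φ t x), ← h.add, add_comm (tk f τ k (φ t x)) t]
      ring
    rw [h2]
    exact h1.comp ih

end tkl

section wtl

variable {S : Type} [TopologicalSpace S] {φ : ℝ → S → S} {χ : S → ℝ}

theorem wt_add (h : IsFlow φ) (hχ : Continuous χ) (K r t : ℝ) (x : S) :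
    wt φ χ K (r + t) x = wt φ χ K r x + wt φ χ K t (φ r x) := by
  unfold wt
  rw [coc_add h hχ]
  ring

omit [TopologicalSpace S] in
theorem wt_zero (K : ℝ) (x : S) : wt φ χ K 0 x = 0 := by
  simp [wt, coc]

theorem wt_cont [LocallyCompactSpace S] (h : IsFlow φ) (hχ : Continuous χ) (K : ℝ) :
    Continuous (fun p : ℝ × S => wt φ χ K p.1 p.2) :=
  continuous_fst.add (continuous_const.mul (coc_cont h hχ))

omit [TopologicalSpace S] in
theorem coc_nonneg (hχ0 : ∀ x, 0 ≤ χ x) {t : ℝ} (ht : 0 ≤ t) (x : S) : 0 ≤ coc φ χ t x :=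
  intervalIntegral.integral_nonneg ht fun _ _ => hχ0 _

theorem wt_sub (h : IsFlow φ) (hχ : Continuous χ) (hχ0 : ∀ x, 0 ≤ χ x) {K : ℝ} (hK : 0 ≤ K)
    {s t : ℝ} (hst : s ≤ t) (x : S) : t - s ≤ wt φ χ K t x - wt φ χ K s x := by
  have h1 := wt_add h hχ K s (t - s) x
  rw [add_sub_cancel] at h1
  have h2 : t - s ≤ wt φ χ K (t - s) (φ s x) := by
    unfold wt
    have := mul_nonneg hK (coc_nonneg (φ := φ) hχ0 (sub_nonneg.2 hst) (φ s x))
    linarith
  linarith

theorem wt_mono (h : IsFlow φ) (hχ : Continuous χ) (hχ0 : ∀ x, 0 ≤ χ x) {K : ℝ} (hK : 0 ≤ K)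
    (x : S) : StrictMono (fun t => wt φ χ K t x) := by
  intro s t hst
  have := wt_sub h hχ hχ0 hK hst.le x
  simp only
  linarith

/-- the solver for the weighted time -/
theorem wt_solve [LocallyCompactSpace S] (h : IsFlow φ) (hχ : Continuous χ)
    (hχ0 : ∀ x, 0 ≤ χ x) {K : ℝ} (hK : 0 ≤ K) {Θ : Type} [TopologicalSpace Θ]
    {R : Θ → S → ℝ} (hR : Continuous (fun p : Θ × S => R p.1 p.2)) :
    ∃ s : Θ → S → ℝ, Continuous (fun p : Θ × S => s p.1 p.2) ∧
      ∀ θ x, wt φ χ K (s θ x) x = R θ x := by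
  have hex : ∀ θ x, ∃ t, wt φ χ K t x = R θ x := by
    intro θ x
    have hc : Continuous (fun t => wt φ χ K t x) :=
      (wt_cont h hχ K).comp (Continuous.prodMk_left x)
    obtain ⟨t, ht⟩ := mem_range_of_exists_le_of_exists_ge (c := R θ x) hc
      ⟨-|R θ x|, by
        have h1 := wt_sub h hχ hχ0 hK (neg_nonpos.2 (abs_nonneg (R θ x))) x
        rw [wt_zero] at h1
        have h2 := neg_abs_le (R θ x)
        linarith⟩
      ⟨|R θ x|, by
        have h1 := wt_sub h hχ hχ0 hK (abs_nonneg (R θ x)) x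
        rw [wt_zero] at h1
        have h2 := le_abs_self (R θ x)
        linarith⟩
    exact ⟨t, ht⟩
  choose s hs using hex
  refine ⟨s, ?_, hs⟩
  rw [continuous_iff_continuousAt]
  rintro ⟨θ₀, x₀⟩
  rw [ContinuousAt, Metric.tendsto_nhds]
  intro ε hε
  have hc1 : Continuous (fun p : Θ × S => R p.1 p.2 - wt φ χ K (s θ₀ x₀) p.2) :=
    hR.sub ((wt_cont h hχ K).comp (continuous_const.prodMk continuous_snd))
  have h0 : R θ₀ x₀ - wt φ χ K (s θ₀ x₀) x₀ = 0 := by rw [hs, sub_self]
  have h1 := Metric.tendsto_nhds.1 (hc1.tendsto (θ₀, x₀)) ε hε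
  filter_upwards [h1] with p hp
  simp only [h0, Real.dist_eq, sub_zero] at hp
  rw [← hs p.1 p.2] at hp
  rw [Real.dist_eq]
  refine lt_of_le_of_lt ?_ hp
  rcases le_total (s θ₀ x₀) (s p.1 p.2) with h2 | h2
  · have h3 := wt_sub h hχ hχ0 hK h2 p.2
    rw [abs_of_nonneg (sub_nonneg.2 h2)]
    exact h3.trans (le_abs_self _)
  · have h3 := wt_sub h hχ hχ0 hK h2 p.2
    rw [abs_of_nonpos (sub_nonpos.2 h2)]
    have h4 := neg_abs_le (wt φ χ K (s p.1 p.2) p.2 - wt φ χ K (s θ₀ x₀) p.2)
    linarith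

end wtl

section conj

variable {S : Type} [TopologicalSpace S] [CompactSpace S] [T2Space S] {φ : ℝ → S → S}

/-- The conjugating homeomorphism: average of the weighted times of the first `n` iterates. -/
theorem exists_avg_conj (h : IsFlow φ) {χ : S → ℝ} (hχ : Continuous χ) (hχ0 : ∀ x, 0 ≤ χ x)
    {K : ℝ} (hK : 0 ≤ K) {f : S ≃ₜ S} {τ : S → ℝ} (hτ : Continuous τ)
    (hf : ∀ x, f x = φ (τ x) x) {m : ℝ} (hm : ∀ x, |τ x| ≤ m) {n : ℕ} (hn : 0 < n) :
    ∃ g : S ≃ₜ S, IsotopicToId g ∧ ∀ x, ∃ β : ℝ, g (f x) = φ β (g x) ∧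
      wt φ χ K β (g x) = wt φ χ K (tk f τ n x) x / n := by
  have hn' : (0 : ℝ) < n := by exact_mod_cast hn
  let B : S → ℝ := fun x => (∑ k ∈ Finset.range n, wt φ χ K (tk f τ k x) x) / n
  have hBc : Continuous B := by
    refine (continuous_finsetSum _ fun k _ => ?_).div_const _
    exact (wt_cont h hχ K).comp ((tk_cont f.continuous hτ k).prodMk continuous_id)
  have hRc : Continuous (fun p : unitInterval × S => (p.1 : ℝ) * B p.2) :=
    (continuous_subtype_val.comp continuous_fst).mul (hBc.comp continuous_snd)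
  obtain ⟨s, hsc, hs⟩ := wt_solve h hχ hχ0 hK (Θ := unitInterval)
    (R := fun θ x => (θ : ℝ) * B x) hRc
  -- strict monotonicity
  have hmono : ∀ (θ : unitInterval) (x : S), StrictMono (fun t => t + s θ (φ t x)) := by
    intro θ x t t' htt
    simp only
    by_contra hcon
    push Not at hcon
    have h0 : (0 : ℝ) ≤ θ := θ.2.1
    have h1 : (θ : ℝ) ≤ 1 := θ.2.2
    have hW : ∀ r, wt φ χ K (r + s θ (φ r x)) x = (1 - (θ : ℝ)) * wt φ χ K r x +
        θ * ((∑ k ∈ Finset.range n, wt φ χ K (r + tk f τ k (φ r x)) x) / n) := by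
      intro r
      rw [wt_add h hχ, hs]
      have e : ∀ k ∈ Finset.range n, wt φ χ K (r + tk f τ k (φ r x)) x
          = wt φ χ K r x + wt φ χ K (tk f τ k (φ r x)) (φ r x) := fun k _ => wt_add h hχ K _ _ _
      rw [Finset.sum_congr rfl e, Finset.sum_add_distrib, Finset.sum_const, Finset.card_range,
        nsmul_eq_mul]
      have e2 : ((n : ℝ) * wt φ χ K r x +
          ∑ k ∈ Finset.range n, wt φ χ K (tk f τ k (φ r x)) (φ r x)) / n
          = wt φ χ K r x + B (φ r x) := by
        change _ = wt φ χ K r x + (∑ k ∈ Finset.range n, wt φ χ K (tk f τ k (φ r x)) (φ r x)) / n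
        field_simp
      rw [e2]
      ring
    have h2 : wt φ χ K (t' + s θ (φ t' x)) x ≤ wt φ χ K (t + s θ (φ t x)) x :=
      (wt_mono h hχ hχ0 hK x).monotone hcon
    rw [hW, hW] at h2
    have h3 : wt φ χ K t x < wt φ χ K t' x := wt_mono h hχ hχ0 hK x htt
    have h4 : (∑ k ∈ Finset.range n, wt φ χ K (t + tk f τ k (φ t x)) x) / n
        < (∑ k ∈ Finset.range n, wt φ χ K (t' + tk f τ k (φ t' x)) x) / n := by
      refine div_lt_div_of_pos_right ?_ hn'
      refine Finset.sum_lt_sum_of_nonempty ⟨0, Finset.mem_range.2 hn⟩ fun k _ => ?_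
      exact wt_mono h hχ hχ0 hK x (inc_k h f.injective hτ hf hm k x htt)
    rcases eq_or_lt_of_le h0 with h5 | h5
    · rw [← h5] at h2
      linarith
    · have h6 := mul_lt_mul_of_pos_left h4 h5
      have h7 : (1 - (θ : ℝ)) * wt φ χ K t x ≤ (1 - θ) * wt φ χ K t' x :=
        mul_le_mul_of_nonneg_left h3.le (by linarith)
      linarith
  -- the homeomorphisms
  have hcont : Continuous (fun p : unitInterval × S => φ (s p.1 p.2) p.2) :=
    h.cont.comp (hsc.prodMk continuous_snd)
  have hinj : ∀ θ : unitInterval, Function.Injective (fun x => φ (s θ x) x) := by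
    intro θ x y hxy
    simp only at hxy
    obtain ⟨t, ht⟩ : ∃ t : ℝ, t = s θ x - s θ y := ⟨_, rfl⟩
    have hy : y = φ t x := by
      have e1 := congrArg (φ (-(s θ y))) hxy
      rw [h.neg, ← h.add] at e1
      have e2 : -(s θ y) + s θ x = t := by rw [ht]; ring
      rw [e2] at e1
      exact e1.symm
    have h1 : (fun t => t + s θ (φ t x)) t = (fun t => t + s θ (φ t x)) 0 := by
      simp only
      rw [← hy, h.zero, ht]
      ring
    have h2 : t = 0 := (hmono θ x).injective h1
    rw [hy, h2, h.zero]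
  have hsurj : ∀ θ : unitInterval, Function.Surjective (fun x => φ (s θ x) x) := by
    intro θ x
    have hsθ : Continuous (s θ) := hsc.comp (Continuous.prodMk_right θ)
    obtain ⟨M, hM⟩ := isCompact_univ.exists_bound_of_continuousOn (f := s θ) hsθ.continuousOn
    have hM' : ∀ y, |s θ y| ≤ M := fun y => hM y (mem_univ y)
    have hc : Continuous (fun t => t + s θ (φ t x)) :=
      continuous_id.add (hsθ.comp (h.cont2 x))
    obtain ⟨t, ht⟩ := mem_range_of_exists_le_of_exists_ge (c := (0 : ℝ)) hc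
      ⟨-M, by have := (abs_le.1 (hM' (φ (-M) x))).2; linarith⟩
      ⟨M, by have := (abs_le.1 (hM' (φ M x))).1; linarith⟩
    refine ⟨φ t x, ?_⟩
    simp only at ht ⊢
    rw [← h.add, show s θ (φ t x) + t = 0 by linarith, h.zero]
  let e : unitInterval → (S ≃ S) := fun θ => Equiv.ofBijective _ ⟨hinj θ, hsurj θ⟩
  have he : ∀ θ, Continuous (e θ) := fun θ => hcont.comp (Continuous.prodMk_right θ)
  let g : unitInterval → (S ≃ₜ S) := fun θ => (he θ).homeoOfEquivCompactToT2
  have hg : ∀ θ x, g θ x = φ (s θ x) x := fun θ x => rfl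
  refine ⟨g 1, ⟨g, hcont, fun x => ?_, fun x => rfl⟩, fun x => ?_⟩
  · rw [hg]
    have h1 : wt φ χ K (s 0 x) x = wt φ χ K 0 x := by
      rw [hs, wt_zero]
      simp
    rw [(wt_mono h hχ hχ0 hK x).injective h1, h.zero]
  · refine ⟨τ x + s 1 (f x) - s 1 x, ?_, ?_⟩
    · have e1 : φ (s 1 (f x)) (f x) = φ (s 1 (f x) + τ x) x := by
        rw [h.add, ← hf]
      rw [hg, hg, ← h.add, e1]
      congr 1
      ring
    · rw [hg]
      have e1 := wt_add h hχ K (s 1 x) (τ x + s 1 (f x) - s 1 x) x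
      rw [show s 1 x + (τ x + s 1 (f x) - s 1 x) = τ x + s 1 (f x) by ring] at e1
      have e2 := wt_add h hχ K (τ x) (s 1 (f x)) x
      rw [← hf, hs] at e2
      have e3 : wt φ χ K (s 1 x) x = B x := by
        rw [hs]
        simp
      have e4 : wt φ χ K (τ x) x + B (f x) - B x = wt φ χ K (tk f τ n x) x / n := by
        have e5 : ∀ k ∈ Finset.range n, wt φ χ K (tk f τ (k + 1) x) x
            = wt φ χ K (τ x) x + wt φ χ K (tk f τ k (f x)) (f x) := fun k _ => by
          rw [tk_shift, wt_add h hχ, ← hf]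
        have e6 := Finset.sum_range_sub (fun k => wt φ χ K (tk f τ k x) x) n
        rw [Finset.sum_sub_distrib, Finset.sum_congr rfl e5, Finset.sum_add_distrib,
          Finset.sum_const, Finset.card_range, nsmul_eq_mul] at e6
        have e7 : wt φ χ K (tk f τ 0 x) x = 0 := by
          change wt φ χ K 0 x = 0
          exact wt_zero K x
        rw [e7, sub_zero] at e6
        change wt φ χ K (τ x) x + (∑ k ∈ Finset.range n, wt φ χ K (tk f τ k (f x)) (f x)) / n
          - (∑ k ∈ Finset.range n, wt φ χ K (tk f τ k x) x) / n = _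
        rw [← e6]
        field_simp
      have e8 : ((1 : unitInterval) : ℝ) * B (f x) = B (f x) := by simp
      rw [e8] at e2
      linarith

end conj

end Pool.Agent.H61.SF
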