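import Pool.Agent.H61.SF.Along

/-!
# Closeness to the identity

Used for MP_b11560_gt.
-/

set_option autoImplicit false

open MeasureTheory Filter Topology Set Metric

namespace Pool.Agent.H61.SF

variable {S : Type} [MetricSpace S] [CompactSpace S] {φ : ℝ → S → S}

/-- A weight for which small weighted times give small displacements. -/
theorem exists_weight (h : IsFlow φ) {E : Set S} (hEne : E.Nonempty) {ε : ℝ}
    (hE : ∀ e ∈ E, ∀ t, dist (φ t e) e ≤ ε) {M : ℝ} (hM : 0 < M) {ε' : ℝ} (hε' : 0 < ε') :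
    ∃ (χ : S → ℝ) (K : ℝ), Continuous χ ∧ (∀ x, 0 ≤ χ x) ∧ (∀ x ∈ E, χ x = 0) ∧ 0 < K ∧
      ∀ (y : S) (b : ℝ), |wt φ χ K b y| ≤ M → dist (φ b y) y ≤ ε + ε' := by
  obtain ⟨δ₁, hδ₁, hδ₁2⟩ := unif_cont h M (show 0 < ε' / 3 by linarith)
  set δ : ℝ := min δ₁ (ε' / 3) with hδdef
  have hδ : 0 < δ := lt_min hδ₁ (by linarith)
  obtain ⟨η, hη, hη2⟩ := small_time h (show 0 < min (ε' / 3) (δ / 2) from
    lt_min (by linarith) (by linarith))
  set χ : S → ℝ := fun x => min 1 (2 * infDist x E / δ) with hχdef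
  have hχc : Continuous χ :=
    continuous_const.min ((continuous_const.mul (continuous_infDist_pt E)).div_const δ)
  have hχE : ∀ x ∈ E, χ x = 0 := by
    intro x hx
    simp only [hχdef, infDist_zero_of_mem hx]
    simp
  have hχ0 : ∀ x, 0 ≤ χ x := fun x => le_min zero_le_one
    (div_nonneg (mul_nonneg zero_le_two infDist_nonneg) hδ.le)
  have hχ1 : ∀ x, δ / 2 ≤ infDist x E → χ x = 1 := by
    intro x hx
    refine min_eq_left ?_
    rw [le_div_iff₀ hδ]
    linarith
  have hKη : (M + 1) / η * η = M + 1 := by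
    field_simp
  have hKpos : 0 < (M + 1) / η := by positivity
  refine ⟨χ, (M + 1) / η, hχc, hχ0, hχE, hKpos, fun y b hb => ?_⟩
  set K : ℝ := (M + 1) / η with hK
  have hcoc0 : ∀ t x, 0 ≤ t → 0 ≤ coc φ χ t x := fun t x ht => coc_nonneg hχ0 ht x
  have hb1 : 0 ≤ b → b + K * coc φ χ b y ≤ M := fun _ => (le_abs_self _).trans hb
  have hb2 : b ≤ 0 → (-b) + K * coc φ χ (-b) (φ b y) ≤ M := by
    intro _
    have h1 := coc_add h hχc b (-b) y
    rw [add_neg_cancel] at h1
    have h2 : coc φ χ 0 y = 0 := by simp [coc]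
    have h3 := (neg_le_abs _).trans hb
    unfold wt at h3
    have h4 : coc φ χ (-b) (φ b y) = -coc φ χ b y := by linarith
    rw [h4]
    linarith
  have hbm : |b| ≤ M := by
    rcases le_total 0 b with h0 | h0
    · rw [abs_of_nonneg h0]
      have h1 := hb1 h0
      have h2 := mul_nonneg hKpos.le (hcoc0 b y h0)
      linarith
    · rw [abs_of_nonpos h0]
      have h1 := hb2 h0
      have h2 := mul_nonneg hKpos.le (hcoc0 (-b) (φ b y) (by linarith))
      linarith
  by_cases hy : infDist y E < δ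
  · obtain ⟨e, he, hye⟩ := (infDist_lt_iff hEne).1 hy
    have d1 := hδ₁2 y e (hye.trans_le (min_le_left _ _)) b hbm
    have d2 := hE e he b
    have d3 : dist e y ≤ ε' / 3 := by
      rw [dist_comm]
      exact hye.le.trans (min_le_right _ _)
    linarith [dist_triangle (φ b y) (φ b e) y, dist_triangle (φ b e) e y]
  · push Not at hy
    have hE0 : 0 ≤ ε := by
      obtain ⟨e, he⟩ := hEne
      exact dist_nonneg.trans (hE e he 0)
    have hone : ∀ s, |s| ≤ η → χ (φ s y) = 1 := by
      intro s hs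
      refine hχ1 _ ?_
      have h1 := (hη2 s hs y).trans (min_le_right _ _)
      have h2 := infDist_le_infDist_add_dist (s := E) (x := y) (y := φ s y)
      rw [dist_comm] at h2
      linarith
    have hbη : |b| < η := by
      by_contra hcon
      push Not at hcon
      have hfull : ∀ w : S, (∀ s ∈ Icc (0 : ℝ) η, χ (φ s w) = 1) → coc φ χ η w = η := by
        intro w hw
        unfold coc
        rw [intervalIntegral.integral_congr (g := fun _ => (1 : ℝ)) (fun s hs => by
          rw [uIcc_of_le hη.le] at hs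
          exact hw s hs)]
        simp
      rcases le_total 0 b with h0 | h0
      · rw [abs_of_nonneg h0] at hcon
        have h1 := hb1 h0
        have h2 := coc_add h hχc η (b - η) y
        rw [add_sub_cancel] at h2
        have h3 := hfull y fun s hs => hone s (by rw [abs_of_nonneg hs.1]; exact hs.2)
        have h4 := hcoc0 (b - η) (φ η y) (by linarith)
        have h5 : K * η ≤ K * coc φ χ b y := mul_le_mul_of_nonneg_left (by linarith) hKpos.le
        linarith
      · rw [abs_of_nonpos h0] at hcon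
        have h1 := hb2 h0
        have h2 := coc_add h hχc (-b - η) η (φ b y)
        rw [sub_add_cancel] at h2
        have h3 := hfull (φ (-b - η) (φ b y)) fun s hs => by
          rw [← h.add, ← h.add]
          refine hone _ ?_
          rw [show s + (-b - η) + b = s - η by ring, abs_le]
          constructor <;> linarith [hs.1, hs.2]
        have h4 := hcoc0 (-b - η) (φ b y) (by linarith)
        have h5 : K * η ≤ K * coc φ χ (-b) (φ b y) :=
          mul_le_mul_of_nonneg_left (by linarith) hKpos.le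
        linarith
    have h6 := (hη2 b hbη.le y).trans (min_le_left _ _)
    linarith

/-- **Conjugation by averages of the weighted time.** -/
theorem avg_close (h : IsFlow φ) {E : Set S} (hEne : E.Nonempty) {f : S ≃ₜ S} {τ : S → ℝ}
    (hτ : Continuous τ) (hf : ∀ x, f x = φ (τ x) x) {m : ℝ} (hm : ∀ x, |τ x| ≤ m)
    (hDR : ∀ χ : S → ℝ, Continuous χ → (∀ x, 0 ≤ χ x) → (∀ x ∈ E, χ x = 0) → ∀ η > 0,
      ∃ n : ℕ, 0 < n ∧ ∀ x, |coc φ χ (tk f τ n x) x| ≤ η * n)
    {ε : ℝ} (hE : ∀ e ∈ E, ∀ t, dist (φ t e) e ≤ ε) {ε' : ℝ} (hε' : 0 < ε') :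
    ∃ g : S ≃ₜ S, IsotopicToId g ∧ ∀ y, dist (g (f (g.symm y))) y ≤ ε + ε' := by
  have hm0 : 0 ≤ m := by
    obtain ⟨e, _⟩ := hEne
    exact (abs_nonneg _).trans (hm e)
  obtain ⟨χ, K, hχ, hχ0, hχE, hK, hdist⟩ := exists_weight h hEne hE (M := m + 1)
    (by linarith) hε'
  obtain ⟨n, hn, hdr⟩ := hDR χ hχ hχ0 hχE (1 / K) (by positivity)
  obtain ⟨g, hg, hg2⟩ := exists_avg_conj h hχ hχ0 hK.le hτ hf hm hn
  refine ⟨g, hg, fun y => ?_⟩
  obtain ⟨β, hβ1, hβ2⟩ := hg2 (g.symm y)
  rw [g.apply_symm_apply] at hβ1 hβ2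
  rw [hβ1]
  refine hdist y β ?_
  have hn' : (0 : ℝ) < n := by exact_mod_cast hn
  rw [hβ2, abs_div, abs_of_pos hn', div_le_iff₀ hn']
  unfold wt
  have h1 := tk_bound (f := f) hm n (g.symm y)
  have h2 := hdr (g.symm y)
  have h3 := abs_add_le (tk f τ n (g.symm y)) (K * coc φ χ (tk f τ n (g.symm y)) (g.symm y))
  rw [abs_mul, abs_of_pos hK] at h3
  have h4 : K * |coc φ χ (tk f τ n (g.symm y)) (g.symm y)| ≤ K * (1 / K * n) :=
    mul_le_mul_of_nonneg_left h2 hK.le
  have h5 : K * (1 / K * n) = n := by field_simp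
  linarith

end Pool.Agent.H61.SF
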