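import Pool.Agent.H61.SF.Rho

/-!
# The conjugating homeomorphism of a slow flow

Used for MP_b11560_gt.
-/

set_option autoImplicit false

open MeasureTheory Filter Topology Set Metric

namespace Pool.Agent.H61.SF

/-- The homeomorphism `h` is isotopic to the identity. -/
def IsotopicToId {S : Type} [TopologicalSpace S] (h : S ≃ₜ S) : Prop :=
  ∃ H : unitInterval → (S ≃ₜ S), Continuous (fun p : unitInterval × S => H p.1 p.2) ∧
    (∀ x, H 0 x = x) ∧ ∀ x, H 1 x = h x

section iso

variable {S : Type} [TopologicalSpace S]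

theorem isoId_refl : IsotopicToId (Homeomorph.refl S) :=
  ⟨fun _ => Homeomorph.refl S, continuous_snd, fun _ => rfl, fun _ => rfl⟩

theorem isoId_trans {g h : S ≃ₜ S} (hg : IsotopicToId g) (hh : IsotopicToId h) :
    IsotopicToId (g.trans h) := by
  obtain ⟨G, hG, hG0, hG1⟩ := hg
  obtain ⟨H, hH, hH0, hH1⟩ := hh
  refine ⟨fun s => (G s).trans (H s), ?_, fun x => ?_, fun x => ?_⟩
  · exact hH.comp (continuous_fst.prodMk hG)
  · change H 0 (G 0 x) = x
    rw [hG0, hH0]
  · change H 1 (G 1 x) = h (g x)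
    rw [hG1, hH1]

theorem isoId_symm [CompactSpace S] [T2Space S] {g : S ≃ₜ S} (hg : IsotopicToId g) :
    IsotopicToId g.symm := by
  obtain ⟨G, hG, hG0, hG1⟩ := hg
  let e : (unitInterval × S) ≃ (unitInterval × S) :=
    { toFun := fun p => (p.1, G p.1 p.2)
      invFun := fun p => (p.1, (G p.1).symm p.2)
      left_inv := fun p => by simp
      right_inv := fun p => by simp }
  have hec : Continuous e := continuous_fst.prodMk hG
  have hes : Continuous e.symm := (hec.homeoOfEquivCompactToT2 (f := e)).symm.continuous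
  refine ⟨fun s => (G s).symm, ?_, fun x => ?_, fun x => ?_⟩
  · exact continuous_snd.comp hes
  · rw [Homeomorph.symm_apply_eq, hG0]
  · rw [Homeomorph.symm_apply_eq, hG1, g.apply_symm_apply]

end iso

section conj

variable {S : Type} [TopologicalSpace S] [CompactSpace S] [T2Space S] {φ : ℝ → S → S}

theorem exists_conj (h : IsFlow φ) {ρ : S → ℝ} (hρ : Continuous ρ)
    (hA : ∀ (x : S) (t : ℝ), 0 ≤ t → t / 2 ≤ t + ρ (φ t x) - ρ x) :
    ∃ k : S ≃ₜ S, IsotopicToId k ∧ ∀ x, k x = φ (ρ x) x := by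
  obtain ⟨M, hM⟩ := isCompact_univ.exists_bound_of_continuousOn (f := ρ) hρ.continuousOn
  have hM' : ∀ x, |ρ x| ≤ M := fun x => hM x (mem_univ x)
  have hcont : Continuous (fun p : unitInterval × S => φ ((p.1 : ℝ) * ρ p.2) p.2) :=
    h.cont.comp (((continuous_subtype_val.comp continuous_fst).mul
      (hρ.comp continuous_snd)).prodMk continuous_snd)
  have hinj : ∀ θ : unitInterval, Function.Injective (fun x => φ ((θ : ℝ) * ρ x) x) := by
    intro θ
    have h0 : (0 : ℝ) ≤ θ := θ.2.1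
    have h1 : (θ : ℝ) ≤ 1 := θ.2.2
    -- one-sided statement
    have main : ∀ x s, 0 ≤ s → s + θ * (ρ (φ s x) - ρ x) = 0 → s = 0 := by
      intro x s hs he
      have h2 := hA x s hs
      have h3 : θ * (s / 2) ≤ θ * (s + ρ (φ s x) - ρ x) := mul_le_mul_of_nonneg_left h2 h0
      nlinarith
    intro x y hxy
    simp only at hxy
    obtain ⟨s, hs⟩ : ∃ s : ℝ, s = (θ : ℝ) * ρ x - θ * ρ y := ⟨_, rfl⟩
    have hy : y = φ s x := by
      have e1 := congrArg (φ (-((θ : ℝ) * ρ y))) hxy
      rw [h.neg, ← h.add] at e1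
      have e2 : -((θ : ℝ) * ρ y) + θ * ρ x = s := by rw [hs]; ring
      rw [e2] at e1
      exact e1.symm
    have hx : x = φ (-s) y := by
      have e1 := h.neg s x
      rw [← hy] at e1
      exact e1.symm
    rcases le_total 0 s with h2 | h2
    · have h3 : s = 0 := main x s h2 (by rw [← hy, hs]; ring)
      rw [hy, h3, h.zero]
    · have h3 : -s = 0 := main y (-s) (by linarith) (by rw [← hx, hs]; ring)
      rw [hx, h3, h.zero]
  have hsurj : ∀ θ : unitInterval, Function.Surjective (fun x => φ ((θ : ℝ) * ρ x) x) := by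
    intro θ x
    have h0 : (0 : ℝ) ≤ θ := θ.2.1
    have h1 : (θ : ℝ) ≤ 1 := θ.2.2
    have hc : Continuous (fun t => t + θ * ρ (φ t x)) :=
      continuous_id.add (continuous_const.mul (hρ.comp (h.cont2 x)))
    have hb : ∀ t, |(θ : ℝ) * ρ (φ t x)| ≤ M := by
      intro t
      rw [abs_mul, abs_of_nonneg h0]
      have := hM' (φ t x)
      nlinarith [abs_nonneg (ρ (φ t x))]
    obtain ⟨t, ht⟩ := mem_range_of_exists_le_of_exists_ge (c := (0 : ℝ)) hc
      ⟨-M, by have := (abs_le.1 (hb (-M))).2; linarith⟩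
      ⟨M, by have := (abs_le.1 (hb M)).1; linarith⟩
    refine ⟨φ t x, ?_⟩
    simp only at ht ⊢
    rw [← h.add, show (θ : ℝ) * ρ (φ t x) + t = 0 by linarith, h.zero]
  let e : unitInterval → (S ≃ S) := fun θ => Equiv.ofBijective _ ⟨hinj θ, hsurj θ⟩
  have he : ∀ θ, Continuous (e θ) := fun θ => hcont.comp (Continuous.prodMk_right θ)
  let k : unitInterval → (S ≃ₜ S) := fun θ => (he θ).homeoOfEquivCompactToT2
  have hk : ∀ θ x, k θ x = φ ((θ : ℝ) * ρ x) x := fun θ x => rfl
  refine ⟨k 1, ⟨k, hcont, fun x => ?_, fun x => rfl⟩, fun x => ?_⟩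
  · rw [hk]
    simp [h.zero]
  · rw [hk]
    simp

end conj

section close

variable {S : Type} [MetricSpace S] [CompactSpace S] {φ : ℝ → S → S}

theorem unif_cont (h : IsFlow φ) (m : ℝ) {ε : ℝ} (hε : 0 < ε) :
    ∃ δ : ℝ, 0 < δ ∧ ∀ x y, dist x y < δ → ∀ t, |t| ≤ m → dist (φ t x) (φ t y) ≤ ε := by
  have hc : Continuous (fun p : Icc (-m) m × S => φ p.1 p.2) :=
    h.cont.comp ((continuous_subtype_val.comp continuous_fst).prodMk continuous_snd)
  have hu := CompactSpace.uniformContinuous_of_continuous hc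
  rw [Metric.uniformContinuous_iff] at hu
  obtain ⟨δ, hδ, hδ2⟩ := hu ε hε
  refine ⟨δ, hδ, fun x y hxy t ht => ?_⟩
  have htm : t ∈ Icc (-m) m := abs_le.1 ht
  have := @hδ2 (⟨t, htm⟩, x) (⟨t, htm⟩, y) (by
    rw [Prod.dist_eq, dist_self]
    exact max_lt hδ hxy)
  exact this.le

theorem small_time (h : IsFlow φ) {ε : ℝ} (hε : 0 < ε) :
    ∃ η : ℝ, 0 < η ∧ ∀ t, |t| ≤ η → ∀ x, dist (φ t x) x ≤ ε := by
  have h1 : ∀ᶠ s in 𝓝 (0 : ℝ), ∀ x ∈ (univ : Set S), dist (φ s x) x < ε := by
    refine isCompact_univ.eventually_forall_of_forall_eventually fun x _ => ?_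
    have hc : Continuous (fun p : ℝ × S => dist (φ p.1 p.2) p.2) :=
      h.cont.dist continuous_snd
    refine hc.continuousAt.eventually_lt continuousAt_const ?_
    simp only [h.zero, dist_self]
    exact hε
  obtain ⟨τ, hτ, hτ2⟩ := Metric.eventually_nhds_iff.1 h1
  refine ⟨τ / 2, by linarith, fun s hs x => ?_⟩
  exact (hτ2 (y := s) (by rw [Real.dist_eq, sub_zero]; linarith) x (mem_univ x)).le

/-- **The conjugation of a slow flow.** -/
theorem slow_conj (h : IsFlow φ) {E : Set S} (hEne : E.Nonempty)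
    (havg : ∀ χ : S → ℝ, Continuous χ → (∀ x ∈ E, χ x = 0) → ∀ η > 0, ∃ T : ℝ, 0 < T ∧
      ∀ x, ∫ s in (0 : ℝ)..T, χ (φ s x) ≤ η * T)
    {ε : ℝ} (hE : ∀ e ∈ E, ∀ t, dist (φ t e) e ≤ ε) {m : ℝ} (hm : 0 < m) {ε' : ℝ} (hε' : 0 < ε') :
    ∃ k : S ≃ₜ S, IsotopicToId k ∧ ∀ (f : S → S) (τ : S → ℝ), (∀ x, |τ x| ≤ m) →
      (∀ x, f x = φ (τ x) x) → ∀ y, dist (k.symm (f (k y))) y ≤ ε + ε' := by
  obtain ⟨δ₁, hδ₁, hδ₁2⟩ := unif_cont h (2 * m) (show 0 < ε' / 3 by linarith)
  set δ : ℝ := min δ₁ (ε' / 3) with hδdef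
  have hδ : 0 < δ := lt_min hδ₁ (by linarith)
  obtain ⟨η, hη, hη2⟩ := small_time h (show 0 < min (ε' / 3) (δ / 2) from
    lt_min (by linarith) (by linarith))
  set χ : S → ℝ := fun x => min 1 (2 * infDist x E / δ) with hχdef
  have hχc : Continuous χ :=
    continuous_const.min ((continuous_const.mul (continuous_infDist_pt E)).div_const δ)
  have hχE : ∀ x ∈ E, χ x = 0 := by
    intro x hx
    simp only [hχdef, infDist_zero_of_mem hx]
    simp
  have hχ0 : ∀ x, 0 ≤ χ x := fun x => le_min zero_le_one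
    (div_nonneg (mul_nonneg zero_le_two infDist_nonneg) hδ.le)
  have hχ1 : ∀ x, δ / 2 ≤ infDist x E → χ x = 1 := by
    intro x hx
    refine min_eq_left ?_
    rw [le_div_iff₀ hδ]
    linarith
  set K : ℝ := (m + 1) / η with hK
  have hKpos : 0 < K := by positivity
  obtain ⟨T, hT, hT2⟩ := havg χ hχc hχE (1 / (2 * K)) (by positivity)
  obtain ⟨ρ, hρ, hρ2⟩ := exists_rho h hχc hKpos hT hT2
  have hcoc0 : ∀ t x, 0 ≤ t → 0 ≤ coc φ χ t x := fun t x ht =>
    intervalIntegral.integral_nonneg ht fun s _ => hχ0 _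
  obtain ⟨k, hk, hk2⟩ := exists_conj h hρ (fun x t ht => by
    have h1 := hρ2 x t ht
    have h2 := mul_nonneg hKpos.le (hcoc0 t x ht)
    linarith)
  refine ⟨k, hk, fun f τ hτ hf y => ?_⟩
  obtain ⟨M, hM⟩ := isCompact_univ.exists_bound_of_continuousOn (f := ρ) hρ.continuousOn
  have hM' : ∀ x, |ρ x| ≤ M := fun x => hM x (mem_univ x)
  have hc : Continuous (fun t => t + ρ (φ t y) - ρ y) :=
    (continuous_id.add (hρ.comp (h.cont2 y))).sub continuous_const
  obtain ⟨b, hb⟩ := mem_range_of_exists_le_of_exists_ge (c := τ (k y)) hc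
    ⟨-(m + 2 * M), by
      have h1 := abs_le.1 (hM' (φ (-(m + 2 * M)) y))
      have h2 := abs_le.1 (hM' y)
      have h3 := abs_le.1 (hτ (k y))
      linarith⟩
    ⟨m + 2 * M, by
      have h1 := abs_le.1 (hM' (φ (m + 2 * M) y))
      have h2 := abs_le.1 (hM' y)
      have h3 := abs_le.1 (hτ (k y))
      linarith⟩
  simp only at hb
  have hkb : k.symm (f (k y)) = φ b y := by
    rw [Homeomorph.symm_apply_eq, hf, hk2 (φ b y), ← h.add, hk2 y, ← hk2 y, ← hb]
    rw [hk2 y, ← h.add]
    congr 1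
    ring
  rw [hkb]
  -- the estimate of `b`
  have hb1 : ∀ t, t = b → 0 ≤ b → b / 2 + K * coc φ χ b y ≤ m := by
    intro t _ hb0
    have h1 := hρ2 y b hb0
    have h3 := abs_le.1 (hτ (k y))
    linarith
  have hb2 : b ≤ 0 → (-b) / 2 + K * coc φ χ (-b) (φ b y) ≤ m := by
    intro hb0
    have h1 := hρ2 (φ b y) (-b) (by linarith)
    have h3 := abs_le.1 (hτ (k y))
    rw [h.neg] at h1
    linarith
  have hbm : |b| ≤ 2 * m := by
    rcases le_total 0 b with h0 | h0
    · rw [abs_of_nonneg h0]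
      have h1 := hb1 b rfl h0
      have h2 := mul_nonneg hKpos.le (hcoc0 b y h0)
      linarith
    · rw [abs_of_nonpos h0]
      have h1 := hb2 h0
      have h2 := mul_nonneg hKpos.le (hcoc0 (-b) (φ b y) (by linarith))
      linarith
  by_cases hy : infDist y E < δ
  · obtain ⟨e, he, hye⟩ := (infDist_lt_iff hEne).1 hy
    have d1 := hδ₁2 y e (hye.trans_le (min_le_left _ _)) b hbm
    have d2 := hE e he b
    have d3 : dist e y ≤ ε' / 3 := by
      rw [dist_comm]
      exact hye.le.trans (min_le_right _ _)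
    linarith [dist_triangle (φ b y) (φ b e) y, dist_triangle (φ b e) e y]
  · push Not at hy
    have hE0 : 0 ≤ ε := by
      obtain ⟨e, he⟩ := hEne
      exact dist_nonneg.trans (hE e he 0)
    have hone : ∀ s, |s| ≤ η → χ (φ s y) = 1 := by
      intro s hs
      refine hχ1 _ ?_
      have h1 := (hη2 s hs y).trans (min_le_right _ _)
      have h2 := infDist_le_infDist_add_dist (s := E) (x := y) (y := φ s y)
      rw [dist_comm] at h2
      linarith
    have hbη : |b| < η := by
      by_contra hcon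
      push Not at hcon
      have hfull : ∀ w : S, (∀ s ∈ Icc (0 : ℝ) η, χ (φ s w) = 1) → coc φ χ η w = η := by
        intro w hw
        unfold coc
        rw [intervalIntegral.integral_congr (g := fun _ => (1 : ℝ)) (fun s hs => by
          rw [uIcc_of_le hη.le] at hs
          exact hw s hs)]
        simp
      have hKη : K * η = m + 1 := by
        rw [hK]
        field_simp
      rcases le_total 0 b with h0 | h0
      · rw [abs_of_nonneg h0] at hcon
        have h1 := hb1 b rfl h0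
        have h2 := coc_add h hχc η (b - η) y
        rw [add_sub_cancel] at h2
        have h3 := hfull y fun s hs => hone s (by rw [abs_of_nonneg hs.1]; exact hs.2)
        have h4 := hcoc0 (b - η) (φ η y) (by linarith)
        have h5 : K * η ≤ K * coc φ χ b y := mul_le_mul_of_nonneg_left (by linarith) hKpos.le
        linarith
      · rw [abs_of_nonpos h0] at hcon
        have h1 := hb2 h0
        have h2 := coc_add h hχc (-b - η) η (φ b y)
        rw [sub_add_cancel] at h2
        have h3 := hfull (φ (-b - η) (φ b y)) fun s hs => by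
          rw [← h.add, ← h.add]
          refine hone _ ?_
          rw [show s + (-b - η) + b = s - η by ring, abs_le]
          constructor <;> linarith [hs.1, hs.2]
        have h4 := hcoc0 (-b - η) (φ b y) (by linarith)
        have h5 : K * η ≤ K * coc φ χ (-b) (φ b y) :=
          mul_le_mul_of_nonneg_left (by linarith) hKpos.le
        linarith
    have h6 := (hη2 b hbη.le y).trans (min_le_left _ _)
    linarith

end close

end Pool.Agent.H61.SF
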