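import Mathlib

/-!
# Displacement along a curve from displacement along a chain of points

Used for MP_b11560_gt.
-/

set_option autoImplicit false

open MeasureTheory Set

namespace Pool.Agent.H61.SF

/-- first index at which the chain has passed `t` -/
noncomputable def kap (σ : ℕ → ℝ) (N : ℕ) (t : ℝ) : ℕ := sInf {k : ℕ | t ≤ σ k ∨ N ≤ k}

theorem kap_mem (σ : ℕ → ℝ) (N : ℕ) (t : ℝ) : t ≤ σ (kap σ N t) ∨ N ≤ kap σ N t :=
  Nat.sInf_mem (s := {k : ℕ | t ≤ σ k ∨ N ≤ k}) ⟨N, Or.inr le_rfl⟩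

theorem kap_le (σ : ℕ → ℝ) (N : ℕ) (t : ℝ) : kap σ N t ≤ N :=
  Nat.sInf_le (Or.inr le_rfl)

theorem kap_mono (σ : ℕ → ℝ) (N : ℕ) : Monotone (kap σ N) := by
  intro s t hst
  refine Nat.sInf_le ?_
  rcases kap_mem σ N t with h | h
  · exact Or.inl (hst.trans h)
  · exact Or.inr h

theorem kap_near {σ : ℕ → ℝ} {N : ℕ} {m : ℝ} (hm : 0 ≤ m) (h0 : σ 0 = 0)
    (hstep : ∀ k < N, |σ (k + 1) - σ k| ≤ m) {t : ℝ} (ht0 : 0 ≤ t) (ht : t ≤ σ N) :
    |σ (kap σ N t) - t| ≤ m := by
  have h1 : t ≤ σ (kap σ N t) := by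
    rcases kap_mem σ N t with h | h
    · exact h
    · rw [le_antisymm (kap_le σ N t) h]
      exact ht
  rcases Nat.eq_zero_or_pos (kap σ N t) with hk | hk
  · rw [hk, h0] at h1 ⊢
    have : t = 0 := le_antisymm h1 ht0
    rw [this]
    simpa using hm
  · obtain ⟨k, hk'⟩ := Nat.exists_eq_succ_of_ne_zero hk.ne'
    have h2 : ¬ (t ≤ σ k ∨ N ≤ k) := by
      have := Nat.notMem_of_lt_sInf (s := {k : ℕ | t ≤ σ k ∨ N ≤ k}) (m := k) (by
        change k < kap σ N t
        omega)
      exact this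
    push Not at h2
    have h3 := hstep k h2.2
    rw [hk'] at h1 ⊢
    have h4 := (abs_le.1 h3).2
    change |σ (k + 1) - t| ≤ m
    rw [abs_of_nonneg (sub_nonneg.2 h1)]
    linarith [h2.1]

theorem curve_bound {X : Type} [MetricSpace X] {g : ℝ → X} {σ : ℕ → ℝ} {N : ℕ} {m C C' δ : ℝ}
    (hgc : Continuous g)
    (hm : 0 ≤ m) (hδ : 0 ≤ δ) (h0 : σ 0 = 0) (hstep : ∀ k < N, |σ (k + 1) - σ k| ≤ m)
    (hg : ∀ s t, |s - t| ≤ m → dist (g s) (g t) ≤ C')
    (hch : ∀ i j, i ≤ j → j ≤ N → dist (g (σ j)) (g (σ i)) ≤ δ * ((j : ℝ) - i) + C)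
    {T : ℝ} (hT : 0 ≤ T) (hTN : T ≤ σ N) (hC : 0 ≤ 2 * C' + C) :
    ∫ t in (0 : ℝ)..(σ N - T), dist (g (t + T)) (g t) ≤ σ N * (2 * C' + C) + δ * T * N := by
  set κ : ℝ → ℝ := fun t => (kap σ N t : ℝ) with hκ
  have hκm : Monotone κ := fun s t hst => by
    simp only [hκ]
    exact_mod_cast kap_mono σ N hst
  have hκi : ∀ a b, IntervalIntegrable κ volume a b := fun a b =>
    (hκm.monotoneOn _).intervalIntegrable
  have hκT : ∀ a b, IntervalIntegrable (fun t => κ (t + T)) volume a b := fun a b =>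
    ((hκm.comp (fun s t hst => by simpa using hst : Monotone fun t : ℝ => t + T)).monotoneOn
      _).intervalIntegrable
  have hpt : ∀ t ∈ Icc (0 : ℝ) (σ N - T), dist (g (t + T)) (g t)
      ≤ (2 * C' + C) + δ * (κ (t + T) - κ t) := by
    intro t ht
    have n1 := kap_near hm h0 hstep (t := t + T) (by linarith [ht.1]) (by linarith [ht.2])
    have n2 := kap_near hm h0 hstep (t := t) ht.1 (by linarith [ht.2])
    have d1 := hg (t + T) (σ (kap σ N (t + T))) (by rw [abs_sub_comm]; exact n1)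
    have d2 := hg (σ (kap σ N t)) t n2
    have d3 := hch (kap σ N t) (kap σ N (t + T)) (kap_mono σ N (by linarith)) (kap_le σ N _)
    have t1 := dist_triangle (g (t + T)) (g (σ (kap σ N (t + T)))) (g t)
    have t2 := dist_triangle (g (σ (kap σ N (t + T)))) (g (σ (kap σ N t))) (g t)
    simp only [hκ]
    linarith
  have hint1 : IntervalIntegrable (fun t => dist (g (t + T)) (g t)) volume 0 (σ N - T) :=
    ((hgc.comp (continuous_id.add continuous_const)).dist hgc).intervalIntegrable _ _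
  have hint2 : IntervalIntegrable (fun t => (2 * C' + C) + δ * (κ (t + T) - κ t)) volume 0
      (σ N - T) :=
    intervalIntegrable_const.add (((hκT _ _).sub (hκi _ _)).const_mul δ)
  have h1 := intervalIntegral.integral_mono_on (by linarith) hint1 hint2 hpt
  refine h1.trans ?_
  rw [intervalIntegral.integral_add intervalIntegrable_const
    (((hκT _ _).sub (hκi _ _)).const_mul δ), intervalIntegral.integral_const,
    intervalIntegral.integral_const_mul, intervalIntegral.integral_sub (hκT _ _) (hκi _ _),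
    intervalIntegral.integral_comp_add_right κ T, sub_zero, zero_add, sub_add_cancel, smul_eq_mul]
  have e1 := intervalIntegral.integral_add_adjacent_intervals (hκi 0 T) (hκi T (σ N))
  have e2 := intervalIntegral.integral_add_adjacent_intervals (hκi 0 (σ N - T))
    (hκi (σ N - T) (σ N))
  have e3 : (0 : ℝ) ≤ ∫ t in (0 : ℝ)..T, κ t :=
    intervalIntegral.integral_nonneg hT fun t _ => by
      simp only [hκ]
      positivity
  have e4 : ∫ t in (σ N - T)..(σ N), κ t ≤ T * N := by
    have := intervalIntegral.integral_mono_on (μ := volume) (a := σ N - T) (b := σ N)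
      (by linarith) (hκi _ _) (intervalIntegrable_const (c := (N : ℝ))) fun t _ => by
        simp only [hκ]
        exact_mod_cast kap_le σ N t
    rw [intervalIntegral.integral_const, smul_eq_mul, sub_sub_cancel] at this
    exact this
  have e5 : (∫ t in T..(σ N), κ t) - (∫ t in (0 : ℝ)..(σ N - T), κ t) ≤ T * N := by linarith
  have e6 := mul_le_mul_of_nonneg_left e5 hδ
  have e7 : (σ N - T) * (2 * C' + C) ≤ σ N * (2 * C' + C) :=
    mul_le_mul_of_nonneg_right (by linarith) hC
  linarith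

end Pool.Agent.H61.SF
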