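import Mathlib

/-!
# Flows: definitions

Used for MP_b11560_gt.
-/

set_option autoImplicit false

namespace Pool.Agent.H61.SF

/-- `φ` is a continuous flow on the space `S`. -/
structure IsFlow {S : Type} [TopologicalSpace S] (φ : ℝ → S → S) : Prop where
  cont : Continuous (fun p : ℝ × S => φ p.1 p.2)
  zero : ∀ x, φ 0 x = x
  add : ∀ s t x, φ (s + t) x = φ s (φ t x)

section

variable {S : Type} [TopologicalSpace S] {φ : ℝ → S → S}

theorem IsFlow.cont1 (h : IsFlow φ) (t : ℝ) : Continuous (φ t) :=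
  h.cont.comp (Continuous.prodMk_right t)

theorem IsFlow.cont2 (h : IsFlow φ) (x : S) : Continuous (fun t => φ t x) :=
  h.cont.comp (Continuous.prodMk_left x)

theorem IsFlow.neg (h : IsFlow φ) (t : ℝ) (x : S) : φ (-t) (φ t x) = x := by
  rw [← h.add, neg_add_cancel, h.zero]

theorem IsFlow.neg' (h : IsFlow φ) (t : ℝ) (x : S) : φ t (φ (-t) x) = x := by
  rw [← h.add, add_neg_cancel, h.zero]

end

end Pool.Agent.H61.SF
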