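import Pool.Agent.H61.SF.KB

/-!
# Limits of occupation measures

Used for MP_b11560_gt.
-/

set_option autoImplicit false

open MeasureTheory Filter Topology Set

open scoped BoundedContinuousFunction

namespace Pool.Agent.H61.SF

variable {S : Type} [TopologicalSpace S] [MeasurableSpace S] [BorelSpace S] {φ : ℝ → S → S}

/-- Krylov-Bogolyubov for arbitrary pieces of trajectories whose lengths tend to infinity. -/
theorem exists_limit [T2Space S] [CompactSpace S] [HasOuterApproxClosed S] (h : IsFlow φ)
    (x : ℕ → S) (T : ℕ → ℝ) (hTp : ∀ n, 0 < T n) (hT : Tendsto T atTop atTop) :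
    ∃ (U : Ultrafilter ℕ) (μ : Measure S), (U : Filter ℕ) ≤ atTop ∧ IsProbabilityMeasure μ ∧
      (∀ t, μ.map (φ t) = μ) ∧ ∀ g : S → ℝ, Continuous g →
        Tendsto (fun n => (T n)⁻¹ * ∫ s in (0 : ℝ)..T n, g (φ s (x n))) U (𝓝 (∫ y, g y ∂μ)) := by
  let μs : ℕ → ProbabilityMeasure S := fun n => ⟨occ φ (T n) (x n), occ_prob h (hTp n) _⟩
  obtain ⟨U, hU⟩ : ∃ U : Ultrafilter ℕ, (U : Filter ℕ) ≤ atTop := Ultrafilter.exists_le atTop
  obtain ⟨μ, -, hμ⟩ := (isCompact_univ (X := ProbabilityMeasure S)).ultrafilter_le_nhds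
    (U.map μs) (by simp)
  have hlim : Tendsto μs U (𝓝 μ) := hμ
  rw [ProbabilityMeasure.tendsto_iff_forall_integral_tendsto] at hlim
  have hint : ∀ (n : ℕ) (g : S → ℝ), Continuous g → ∫ y, g y ∂(μs n : Measure S)
      = (T n)⁻¹ * ∫ s in (0 : ℝ)..(T n), g (φ s (x n)) := fun n g hg =>
    occ_int h (hTp n) (x n) hg
  have hinv : ∀ t, (μ : Measure S).map (φ t) = (μ : Measure S) := by
    intro t
    have hmt : Measurable (φ t) := (h.cont1 t).measurable
    have : IsFiniteMeasure ((μ : Measure S).map (φ t)) := by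
      have := Measure.isProbabilityMeasure_map (μ := (μ : Measure S)) hmt.aemeasurable
      infer_instance
    refine ext_of_forall_integral_eq_of_IsFiniteMeasure fun g => ?_
    rw [integral_map_of_stronglyMeasurable hmt g.continuous.stronglyMeasurable]
    let gt : S →ᵇ ℝ := BoundedContinuousFunction.compContinuous g ⟨φ t, h.cont1 t⟩
    have l1 := hlim gt
    have l2 := hlim g
    have hdiff : Tendsto (fun n => ∫ y, gt y ∂(μs n : Measure S) - ∫ y, g y ∂(μs n : Measure S))
        U (𝓝 0) := by
      have hbig : Tendsto (fun n : ℕ => (2 * |t| * ‖g‖) * (T n)⁻¹) U (𝓝 0) := by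
        have h1 : Tendsto (fun n : ℕ => (T n)⁻¹) U (𝓝 0) :=
          (tendsto_inv_atTop_zero.comp hT).mono_left hU
        simpa using h1.const_mul (2 * |t| * ‖g‖)
      refine squeeze_zero_norm (fun n => ?_) hbig
      have e1 : ∫ y, gt y ∂(μs n : Measure S)
          = (T n)⁻¹ * ∫ s in (0 : ℝ)..(T n), gt (φ s (x n)) :=
        hint n gt gt.continuous
      have e2 : ∫ y, g y ∂(μs n : Measure S)
          = (T n)⁻¹ * ∫ s in (0 : ℝ)..(T n), g (φ s (x n)) :=
        hint n g g.continuous
      have hgc : Continuous (fun s => g (φ s (x n))) := g.continuous.comp (h.cont2 (x n))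
      have e3 : ∫ s in (0 : ℝ)..(T n), gt (φ s (x n))
          = ∫ s in t..(T n + t), g (φ s (x n)) := by
        have e4 : ∀ s, gt (φ s (x n)) = (fun s => g (φ s (x n))) (s + t) := by
          intro s
          change g (φ t (φ s (x n))) = g (φ (s + t) (x n))
          rw [add_comm, h.add]
        simp only [e4]
        rw [intervalIntegral.integral_comp_add_right (fun s => g (φ s (x n))) t, zero_add]
      rw [e1, e2, e3, ← mul_sub, norm_mul, Real.norm_eq_abs (T n)⁻¹,
        abs_of_pos (inv_pos.2 (hTp n)), mul_comm]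
      refine mul_le_mul_of_nonneg_right ?_ (inv_pos.2 (hTp n)).le
      have e5 : (∫ s in t..(T n + t), g (φ s (x n)))
          - (∫ s in (0 : ℝ)..(T n), g (φ s (x n)))
          = (∫ s in (T n)..(T n + t), g (φ s (x n)))
            - ∫ s in (0 : ℝ)..t, g (φ s (x n)) := by
        have i1 := intervalIntegral.integral_add_adjacent_intervals
          (hgc.intervalIntegrable (μ := volume) 0 t)
          (hgc.intervalIntegrable (μ := volume) t (T n + t))
        have i2 := intervalIntegral.integral_add_adjacent_intervals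
          (hgc.intervalIntegrable (μ := volume) 0 (T n))
          (hgc.intervalIntegrable (μ := volume) (T n) (T n + t))
        linarith
      rw [e5]
      have b1 : ‖∫ s in (T n)..(T n + t), g (φ s (x n))‖ ≤ ‖g‖ * |t| := by
        have := intervalIntegral.norm_integral_le_of_norm_le_const
          (a := T n) (b := T n + t) (C := ‖g‖)
          (f := fun s => g (φ s (x n))) fun s _ => g.norm_coe_le_norm _
        rwa [add_sub_cancel_left] at this
      have b2 : ‖∫ s in (0 : ℝ)..t, g (φ s (x n))‖ ≤ ‖g‖ * |t| := by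
        have := intervalIntegral.norm_integral_le_of_norm_le_const
          (a := (0 : ℝ)) (b := t) (C := ‖g‖)
          (f := fun s => g (φ s (x n))) fun s _ => g.norm_coe_le_norm _
        rwa [sub_zero] at this
      calc _ ≤ ‖∫ s in (T n)..(T n + t), g (φ s (x n))‖
            + ‖∫ s in (0 : ℝ)..t, g (φ s (x n))‖ := norm_sub_le _ _
        _ ≤ 2 * |t| * ‖g‖ := by linarith
    have l3 := l1.sub l2
    have := tendsto_nhds_unique l3 hdiff
    have h5 : ∫ y, gt y ∂(μ : Measure S) = ∫ y, g y ∂(μ : Measure S) := by linarith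
    exact h5
  refine ⟨U, μ, hU, inferInstance, hinv, fun g hg => ?_⟩
  let gb : S →ᵇ ℝ := BoundedContinuousFunction.mkOfCompact ⟨g, hg⟩
  have l := hlim gb
  refine l.congr fun n => ?_
  exact hint n g hg

end Pool.Agent.H61.SF
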