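import Pool.Agent.H61.SF.Along
import Pool.Agent.H61.SF.KB2
import Pool.Agent.H61.SF.Curve

/-!
# Vanishing drift of a non-spreading homeomorphism along a flow

Used for MP_b11560_gt.
-/

set_option autoImplicit false

open MeasureTheory Filter Topology Set Metric

namespace Pool.Agent.H61.SF

theorem tk_add {S : Type} {f : S → S} {τ : S → ℝ} (k j : ℕ) (x : S) :
    tk f τ (k + j) x = tk f τ k x + tk f τ j (f^[k] x) := by
  induction j with
  | zero => simp [tk]
  | succ j ih =>
    change tk f τ (k + j) x + τ (f^[k + j] x) = tk f τ k x + (tk f τ j (f^[k] x) + τ (f^[j] (f^[k] x)))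
    rw [ih, add_comm k j, Function.iterate_add_apply]
    ring

section chain

variable {S X : Type} [TopologicalSpace S] [MetricSpace X] {φ : ℝ → S → S} {Φ : ℝ → X → X}
  {p : X → S} {f : S → S} {τ : S → ℝ} {χ : S → ℝ}

theorem exists_chain (h : IsFlow φ) (hΦ : IsFlow Φ) (hpΦ : ∀ t z, φ t (p z) = p (Φ t z))
    (hf : ∀ x, f x = φ (τ x) x) {m : ℝ} (hm : ∀ x, |τ x| ≤ m) (hχ : Continuous χ)
    (hχ0 : ∀ x, 0 ≤ χ x) (N : ℕ) (z : X) :
    ∃ (y : X) (σ : ℕ → ℝ), σ 0 = 0 ∧ σ N = |tk f τ N (p z)| ∧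
      (∀ k < N, |σ (k + 1) - σ k| ≤ m) ∧
      (∀ i j, i ≤ j → j ≤ N → ∃ w, dist (Φ (σ j) y) (Φ (σ i) y)
        = dist (Φ (tk f τ (j - i) (p w)) w) w) ∧
      coc φ χ |tk f τ N (p z)| (p y) = |coc φ χ (tk f τ N (p z)) (p z)| := by
  -- the basic relation along the chain
  have key : ∀ i j, i ≤ j → Φ (tk f τ j (p z)) z
      = Φ (tk f τ (j - i) (p (Φ (tk f τ i (p z)) z))) (Φ (tk f τ i (p z)) z) := by
    intro i j hij
    obtain ⟨l, rfl⟩ := Nat.exists_eq_add_of_le hij
    rw [Nat.add_sub_cancel_left, ← hΦ.add, ← hpΦ, ← tk_iter h hf, tk_add, add_comm]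
  rcases le_or_gt 0 (tk f τ N (p z)) with ht | ht
  · refine ⟨z, fun k => tk f τ k (p z), rfl, (abs_of_nonneg ht).symm, fun k _ => ?_,
      fun i j hij _ => ⟨Φ (tk f τ i (p z)) z, ?_⟩, ?_⟩
    · change |tk f τ k (p z) + τ (f^[k] (p z)) - tk f τ k (p z)| ≤ m
      rw [add_sub_cancel_left]
      exact hm _
    · simp only
      rw [key i j hij]
    · rw [abs_of_nonneg ht, abs_of_nonneg (coc_nonneg hχ0 ht _)]
  · set t := tk f τ N (p z) with htdef
    have hy : ∀ r, Φ (r - t) (Φ t z) = Φ r z := fun r => by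
      rw [← hΦ.add, sub_add_cancel]
    refine ⟨Φ t z, fun k => tk f τ (N - k) (p z) - t, ?_, ?_, fun k hk => ?_,
      fun i j hij hj => ⟨Φ (tk f τ (N - j) (p z)) z, ?_⟩, ?_⟩
    · simp only [Nat.sub_zero, ← htdef, sub_self]
    · simp only [Nat.sub_self]
      rw [abs_of_neg ht]
      change 0 - t = -t
      ring
    · simp only
      have e : N - k = (N - (k + 1)) + 1 := by omega
      rw [e]
      change |tk f τ (N - (k + 1)) (p z) - t
        - (tk f τ (N - (k + 1)) (p z) + τ (f^[N - (k + 1)] (p z)) - t)| ≤ m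
      rw [show tk f τ (N - (k + 1)) (p z) - t
        - (tk f τ (N - (k + 1)) (p z) + τ (f^[N - (k + 1)] (p z)) - t)
        = -(τ (f^[N - (k + 1)] (p z))) by ring, abs_neg]
      exact hm _
    · simp only
      rw [hy, hy, dist_comm, key (N - j) (N - i) (by omega)]
      have e : N - i - (N - j) = j - i := by omega
      rw [e]
    · have h1 := coc_add h hχ t (-t) (p z)
      rw [add_neg_cancel] at h1
      have h2 : coc φ χ 0 (p z) = 0 := by simp [coc]
      have h3 : 0 ≤ coc φ χ (-t) (φ t (p z)) := coc_nonneg hχ0 (by linarith) _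
      rw [abs_of_neg ht, ← hpΦ, abs_of_nonpos (by linarith)]
      linarith

end chain

/-- **Vanishing drift.** -/
theorem drift_rate {S X : Type} [TopologicalSpace S] [MeasurableSpace S] [BorelSpace S]
    [T2Space S] [CompactSpace S] [HasOuterApproxClosed S] [MetricSpace X]
    {φ : ℝ → S → S} (h : IsFlow φ) {Φ : ℝ → X → X} (hΦ : IsFlow Φ) {p : X → S}
    (hp : Function.Surjective p) (hpΦ : ∀ t z, φ t (p z) = p (Φ t z)) {D : ℝ → S → ℝ}
    (hDc : Continuous (fun q : ℝ × S => D q.1 q.2)) (hDp : ∀ t z, D t (p z) = dist (Φ t z) z)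
    {E : Set S}
    (hH : ∀ μ : Measure S, IsProbabilityMeasure μ → (∀ t, μ.map (φ t) = μ) →
      Tendsto (fun T : ℝ => (∫ x, D T x ∂μ) / T) atTop (𝓝 0) → μ Eᶜ = 0)
    {f : S → S} {τ : S → ℝ} (hf : ∀ x, f x = φ (τ x) x) {m : ℝ} (hm : ∀ x, |τ x| ≤ m)
    (hω : ∀ δ > 0, ∃ C : ℝ, ∀ (n : ℕ) (z : X),
      dist (Φ (tk f τ n (p z)) z) z ≤ δ * n + C)
    (χ : S → ℝ) (hχ : Continuous χ) (hχ0 : ∀ x, 0 ≤ χ x) (hχE : ∀ x ∈ E, χ x = 0)
    (η : ℝ) (hη : 0 < η) :
    ∃ n : ℕ, 0 < n ∧ ∀ x, |coc φ χ (tk f τ n x) x| ≤ η * n := by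
  by_contra hcon
  push Not at hcon
  choose x hx using fun n : ℕ => hcon (n + 1) (Nat.succ_pos n)
  choose z hz using fun n : ℕ => hp (x n)
  -- a bound for `χ`
  obtain ⟨X0, hX0pos, hX0⟩ : ∃ X0 : ℝ, 0 < X0 ∧ ∀ x, χ x ≤ X0 := by
    obtain ⟨B, hB⟩ := isCompact_univ.exists_bound_of_continuousOn (f := χ) hχ.continuousOn
    refine ⟨|B| + 1, by positivity, fun x => ?_⟩
    have h1 := hB x (mem_univ x)
    have h2 := le_abs_self B
    have h3 := le_abs_self (χ x)
    rw [Real.norm_eq_abs] at h1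
    linarith
  choose y σ hσ0 hσN hσs hσc hcoc using fun n : ℕ =>
    exists_chain (χ := χ) h hΦ hpΦ hf hm hχ hχ0 (n + 1) (z n)
  set T : ℕ → ℝ := fun n => σ n (n + 1) with hTdef
  have hTabs : ∀ n : ℕ, T n = |tk f τ (n + 1) (x n)| := fun n => by
    simp only [hTdef]
    rw [hσN, hz]
  have hcoc' : ∀ n : ℕ, η * ((n : ℝ) + 1) < coc φ χ (T n) (p (y n)) := by
    intro n
    have h1 := hcoc n
    have h2 := hx n
    rw [hz] at h1
    rw [hTabs, h1]
    push_cast at h2
    exact h2
  have hcocle : ∀ n : ℕ, coc φ χ (T n) (p (y n)) ≤ X0 * T n := by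
    intro n
    have hT0 : 0 ≤ T n := by rw [hTabs]; exact abs_nonneg _
    have hc : Continuous (fun s => χ (φ s (p (y n)))) := hχ.comp (h.cont2 _)
    have := intervalIntegral.integral_mono_on (μ := volume) hT0 (hc.intervalIntegrable _ _)
      (intervalIntegrable_const (c := X0)) fun s _ => hX0 _
    rw [intervalIntegral.integral_const, sub_zero, smul_eq_mul, mul_comm] at this
    exact this
  have hTlow : ∀ n : ℕ, η * ((n : ℝ) + 1) < X0 * T n := fun n => (hcoc' n).trans_le (hcocle n)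
  have hTpos : ∀ n : ℕ, 0 < T n := by
    intro n
    have h1 := hTlow n
    have h2 : 0 < η * ((n : ℝ) + 1) := by positivity
    by_contra hcon'
    push Not at hcon'
    have : X0 * T n ≤ 0 := mul_nonpos_of_nonneg_of_nonpos hX0pos.le hcon'
    linarith
  have hTup : ∀ n : ℕ, T n ≤ ((n : ℝ) + 1) * m := by
    intro n
    rw [hTabs]
    have := tk_bound (f := f) hm (n + 1) (x n)
    push_cast at this
    exact this
  have hmpos : 0 < m := by
    have h1 := hTup 0
    have h2 := hTpos 0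
    simp only [Nat.cast_zero, zero_add, one_mul] at h1
    linarith
  have hTtop : Tendsto T atTop atTop := by
    have h1 : Tendsto (fun n : ℕ => η / X0 * ((n : ℝ) + 1)) atTop atTop :=
      (tendsto_natCast_atTop_atTop.atTop_add tendsto_const_nhds).const_mul_atTop (by positivity)
    refine tendsto_atTop_mono (fun n => ?_) h1
    have h2 := hTlow n
    rw [div_mul_eq_mul_div, div_le_iff₀ hX0pos]
    linarith
  obtain ⟨U, μ, hU, hμ, hμinv, hμlim⟩ := exists_limit h (fun n => p (y n)) T hTpos hTtop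
  -- lower bound for the integral of `χ`
  have hlow : η / m ≤ ∫ x, χ x ∂μ := by
    refine ge_of_tendsto (hμlim χ hχ) (Eventually.of_forall fun n => ?_)
    change η / m ≤ (T n)⁻¹ * coc φ χ (T n) (p (y n))
    rw [le_inv_mul_iff₀ (hTpos n)]
    have h1 := hcoc' n
    have h2 := hTup n
    have h3 : T n * (η / m) ≤ (((n : ℝ) + 1) * m) * (η / m) :=
      mul_le_mul_of_nonneg_right h2 (by positivity)
    have h4 : (((n : ℝ) + 1) * m) * (η / m) = η * ((n : ℝ) + 1) := by
      field_simp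
    linarith
  -- bounds for the displacement
  obtain ⟨C', hC'⟩ : ∃ C' : ℝ, ∀ s, |s| ≤ m → ∀ z, dist (Φ s z) z ≤ C' := by
    obtain ⟨B, hB⟩ := ((isCompact_Icc (a := -m) (b := m)).prod
      (isCompact_univ (X := S))).exists_bound_of_continuousOn
      (f := fun q : ℝ × S => D q.1 q.2) hDc.continuousOn
    refine ⟨B, fun s hs z => ?_⟩
    have h1 := hB (s, p z) ⟨abs_le.1 hs, mem_univ _⟩
    simp only [hDp, Real.norm_eq_abs] at h1
    exact (le_abs_self _).trans h1
  have hC'0 : 0 ≤ C' := dist_nonneg.trans (hC' 0 (by simpa using hmpos.le) (z 0))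
  have hmain : ∀ δ > 0, ∃ C : ℝ, ∀ R > 0, ∫ x, D R x ∂μ ≤ C + δ * R * (X0 / η) := by
    intro δ hδ
    obtain ⟨C, hC⟩ := hω δ hδ
    have hCC : ∀ (n : ℕ) (z : X), dist (Φ (tk f τ n (p z)) z) z ≤ δ * n + |C| := fun n z =>
      (hC n z).trans (by linarith [le_abs_self C])
    refine ⟨2 * C' + |C|, fun R hR => ?_⟩
    have hDR : Continuous (D R) := hDc.comp (Continuous.prodMk_right R)
    obtain ⟨B, hB⟩ := isCompact_univ.exists_bound_of_continuousOn (f := D R) hDR.continuousOn
    have hB' : ∀ x, D R x ≤ |B| := fun x =>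
      (le_abs_self _).trans ((hB x (mem_univ x)).trans (le_abs_self B))
    have hl := hμlim (D R) hDR
    have hr : Tendsto (fun n => (2 * C' + |C|) + δ * R * (X0 / η) + (R * |B|) * (T n)⁻¹) U
        (𝓝 ((2 * C' + |C|) + δ * R * (X0 / η))) := by
      have h1 : Tendsto (fun n : ℕ => (T n)⁻¹) U (𝓝 0) :=
        (tendsto_inv_atTop_zero.comp hTtop).mono_left hU
      have h2 := (h1.const_mul (R * |B|)).const_add ((2 * C' + |C|) + δ * R * (X0 / η))
      simpa using h2
    refine le_of_tendsto_of_tendsto hl hr ?_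
    have hev : ∀ᶠ n in (U : Filter ℕ), R ≤ T n := (hTtop.eventually_ge_atTop R).filter_mono hU
    filter_upwards [hev] with n hn
    have hgc : Continuous (fun s => Φ s (y n)) := hΦ.cont2 _
    have hcb := curve_bound (g := fun s => Φ s (y n)) (σ := σ n) (N := n + 1) (m := m)
      (C := |C|) (C' := C') (δ := δ) hgc hmpos.le hδ.le (hσ0 n) (hσs n)
      (fun s t hst => by
        have h1 := hC' (s - t) hst (Φ t (y n))
        rwa [← hΦ.add, sub_add_cancel] at h1)
      (fun i j hij hj => by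
        obtain ⟨w, hw⟩ := hσc n i j hij hj
        rw [hw]
        have h1 := hCC (j - i) w
        rw [Nat.cast_sub hij] at h1
        exact h1)
      (T := R) hR.le hn (by positivity)
    have hDint : ∀ s, D R (φ s (p (y n))) = dist (Φ (s + R) (y n)) (Φ s (y n)) := by
      intro s
      rw [hpΦ, hDp, ← hΦ.add, add_comm]
    have hc : Continuous (fun s => D R (φ s (p (y n)))) := hDR.comp (h.cont2 _)
    have hsplit := intervalIntegral.integral_add_adjacent_intervals
      (hc.intervalIntegrable (μ := volume) 0 (T n - R))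
      (hc.intervalIntegrable (μ := volume) (T n - R) (T n))
    have hlast : ∫ s in (T n - R)..(T n), D R (φ s (p (y n))) ≤ R * |B| := by
      have := intervalIntegral.integral_mono_on (μ := volume) (a := T n - R) (b := T n)
        (by linarith) (hc.intervalIntegrable _ _) (intervalIntegrable_const (c := |B|))
        fun s _ => hB' _
      rw [intervalIntegral.integral_const, smul_eq_mul, sub_sub_cancel] at this
      exact this
    have hfirst : ∫ s in (0 : ℝ)..(T n - R), D R (φ s (p (y n)))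
        ≤ T n * (2 * C' + |C|) + δ * R * ((n : ℝ) + 1) := by
      simp only [hDint]
      push_cast at hcb
      exact hcb
    have hnT : (n : ℝ) + 1 ≤ (X0 / η) * T n := by
      have h1 := hTlow n
      rw [div_mul_eq_mul_div, le_div_iff₀ hη]
      linarith
    have h5 : δ * R * ((n : ℝ) + 1) ≤ δ * R * ((X0 / η) * T n) :=
      mul_le_mul_of_nonneg_left hnT (by positivity)
    rw [inv_mul_le_iff₀ (hTpos n), ← hsplit]
    have h6 : T n * ((2 * C' + |C|) + δ * R * (X0 / η) + (R * |B|) * (T n)⁻¹)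
        = T n * (2 * C' + |C|) + δ * R * ((X0 / η) * T n) + R * |B| := by
      have := (hTpos n).ne'
      field_simp
    rw [h6]
    linarith
  have hDnn : ∀ R x, 0 ≤ D R x := by
    intro R x
    obtain ⟨z, rfl⟩ := hp x
    rw [hDp]
    exact dist_nonneg
  have htend : Tendsto (fun R : ℝ => (∫ x, D R x ∂μ) / R) atTop (𝓝 0) := by
    rw [Metric.tendsto_nhds]
    intro ε hε
    obtain ⟨C, hC⟩ := hmain (ε / 2 * (η / X0)) (by positivity)
    have h1 : Tendsto (fun R : ℝ => C / R) atTop (𝓝 0) := tendsto_const_nhds.div_atTop tendsto_id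
    filter_upwards [eventually_gt_atTop 0, h1.eventually_lt_const (half_pos hε)] with R hR hR2
    rw [Real.dist_eq, sub_zero, abs_of_nonneg (div_nonneg (integral_nonneg (hDnn R)) hR.le),
      div_lt_iff₀ hR]
    have h2 := hC R hR
    have h3 : ε / 2 * (η / X0) * R * (X0 / η) = ε / 2 * R := by field_simp
    rw [div_lt_iff₀ hR] at hR2
    rw [h3] at h2
    linarith
  have hμE := hH μ hμ hμinv htend
  have hz0 : ∫ y, χ y ∂μ = 0 := by
    refine integral_eq_zero_of_ae ?_
    have : ∀ᵐ y ∂μ, y ∈ E := by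
      rw [ae_iff]
      exact hμE
    filter_upwards [this] with y hy
    exact hχE y hy
  rw [hz0] at hlow
  have : 0 < η / m := by positivity
  linarith

end Pool.Agent.H61.SF
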