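import Pool.Agent.H61.SF.Defs

/-!
# Time averages of a flow whose invariant measures are carried by a closed set

Used for MP_b11560_gt.
-/

set_option autoImplicit false

open MeasureTheory Filter Topology Set

open scoped BoundedContinuousFunction

namespace Pool.Agent.H61.SF

variable {S : Type} [TopologicalSpace S] [MeasurableSpace S] [BorelSpace S] {φ : ℝ → S → S}

/-- the occupation measure of the piece of trajectory of `x` from time `0` to time `T` -/
noncomputable def occ (φ : ℝ → S → S) (T : ℝ) (x : S) : Measure S :=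
  (ENNReal.ofReal T)⁻¹ • (volume.restrict (Ioc 0 T)).map (fun s => φ s x)

theorem occ_prob (h : IsFlow φ) {T : ℝ} (hT : 0 < T) (x : S) :
    IsProbabilityMeasure (occ φ T x) := by
  constructor
  unfold occ
  rw [Measure.smul_apply, Measure.map_apply (h.cont2 x).measurable MeasurableSet.univ,
    preimage_univ, Measure.restrict_apply_univ, Real.volume_Ioc, sub_zero, smul_eq_mul]
  exact ENNReal.inv_mul_cancel (by simpa using hT) ENNReal.ofReal_ne_top

theorem occ_int (h : IsFlow φ) {T : ℝ} (hT : 0 < T) (x : S) {g : S → ℝ} (hg : Continuous g) :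
    ∫ y, g y ∂(occ φ T x) = T⁻¹ * ∫ s in (0 : ℝ)..T, g (φ s x) := by
  unfold occ
  rw [integral_smul_measure, integral_map_of_stronglyMeasurable (h.cont2 x).measurable
    hg.stronglyMeasurable, intervalIntegral.integral_of_le hT.le, ENNReal.toReal_inv,
    ENNReal.toReal_ofReal hT.le, smul_eq_mul]

/-- **Uniform time averages.** If every invariant probability measure is carried by `E` and the
continuous function `χ` vanishes on `E` then the time averages of `χ` are uniformly small. -/
theorem uniform_avg [T2Space S] [CompactSpace S] [HasOuterApproxClosed S] (h : IsFlow φ) {E : Set S}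
    (hE : ∀ μ : Measure S, IsProbabilityMeasure μ → (∀ t, μ.map (φ t) = μ) → μ Eᶜ = 0)
    {χ : S → ℝ} (hχ : Continuous χ) (hχE : ∀ x ∈ E, χ x = 0) {η : ℝ} (hη : 0 < η) :
    ∃ T : ℝ, 0 < T ∧ ∀ x, ∫ s in (0 : ℝ)..T, χ (φ s x) ≤ η * T := by
  by_contra hcon
  push Not at hcon
  have hTp : ∀ n : ℕ, (0 : ℝ) < (n : ℝ) + 1 := fun n => by positivity
  choose x hx using fun n : ℕ => hcon ((n : ℝ) + 1) (hTp n)
  let μs : ℕ → ProbabilityMeasure S := fun n => ⟨occ φ ((n : ℝ) + 1) (x n), occ_prob h (hTp n) _⟩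
  obtain ⟨U, hU⟩ : ∃ U : Ultrafilter ℕ, (U : Filter ℕ) ≤ atTop := Ultrafilter.exists_le atTop
  obtain ⟨μ, -, hμ⟩ := (isCompact_univ (X := ProbabilityMeasure S)).ultrafilter_le_nhds
    (U.map μs) (by simp)
  have hlim : Tendsto μs U (𝓝 μ) := hμ
  rw [ProbabilityMeasure.tendsto_iff_forall_integral_tendsto] at hlim
  have hint : ∀ (n : ℕ) (g : S → ℝ), Continuous g → ∫ y, g y ∂(μs n : Measure S)
      = ((n : ℝ) + 1)⁻¹ * ∫ s in (0 : ℝ)..((n : ℝ) + 1), g (φ s (x n)) := fun n g hg =>
    occ_int h (hTp n) (x n) hg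
  have hinv : ∀ t, (μ : Measure S).map (φ t) = (μ : Measure S) := by
    intro t
    have hmt : Measurable (φ t) := (h.cont1 t).measurable
    have : IsFiniteMeasure ((μ : Measure S).map (φ t)) := by
      have := Measure.isProbabilityMeasure_map (μ := (μ : Measure S)) hmt.aemeasurable
      infer_instance
    refine ext_of_forall_integral_eq_of_IsFiniteMeasure fun g => ?_
    rw [integral_map_of_stronglyMeasurable hmt g.continuous.stronglyMeasurable]
    let gt : S →ᵇ ℝ := BoundedContinuousFunction.compContinuous g ⟨φ t, h.cont1 t⟩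
    have l1 := hlim gt
    have l2 := hlim g
    have hdiff : Tendsto (fun n => ∫ y, gt y ∂(μs n : Measure S) - ∫ y, g y ∂(μs n : Measure S))
        U (𝓝 0) := by
      have hbig : Tendsto (fun n : ℕ => (2 * |t| * ‖g‖) * ((n : ℝ) + 1)⁻¹) U (𝓝 0) := by
        have h1 : Tendsto (fun n : ℕ => ((n : ℝ) + 1)⁻¹) U (𝓝 0) := by
          have := tendsto_one_div_add_atTop_nhds_zero_nat (𝕜 := ℝ)
          simp only [one_div] at this
          exact this.mono_left hU
        simpa using h1.const_mul (2 * |t| * ‖g‖)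
      refine squeeze_zero_norm (fun n => ?_) hbig
      have e1 : ∫ y, gt y ∂(μs n : Measure S)
          = ((n : ℝ) + 1)⁻¹ * ∫ s in (0 : ℝ)..((n : ℝ) + 1), gt (φ s (x n)) :=
        hint n gt gt.continuous
      have e2 : ∫ y, g y ∂(μs n : Measure S)
          = ((n : ℝ) + 1)⁻¹ * ∫ s in (0 : ℝ)..((n : ℝ) + 1), g (φ s (x n)) :=
        hint n g g.continuous
      have hgc : Continuous (fun s => g (φ s (x n))) := g.continuous.comp (h.cont2 (x n))
      have e3 : ∫ s in (0 : ℝ)..((n : ℝ) + 1), gt (φ s (x n))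
          = ∫ s in t..((n : ℝ) + 1 + t), g (φ s (x n)) := by
        have e4 : ∀ s, gt (φ s (x n)) = (fun s => g (φ s (x n))) (s + t) := by
          intro s
          change g (φ t (φ s (x n))) = g (φ (s + t) (x n))
          rw [add_comm, h.add]
        simp only [e4]
        rw [intervalIntegral.integral_comp_add_right (fun s => g (φ s (x n))) t, zero_add]
      rw [e1, e2, e3, ← mul_sub, norm_mul, Real.norm_eq_abs ((n : ℝ) + 1)⁻¹,
        abs_of_pos (inv_pos.2 (hTp n)), mul_comm]
      refine mul_le_mul_of_nonneg_right ?_ (inv_pos.2 (hTp n)).le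
      have e5 : (∫ s in t..((n : ℝ) + 1 + t), g (φ s (x n)))
          - (∫ s in (0 : ℝ)..((n : ℝ) + 1), g (φ s (x n)))
          = (∫ s in ((n : ℝ) + 1)..((n : ℝ) + 1 + t), g (φ s (x n)))
            - ∫ s in (0 : ℝ)..t, g (φ s (x n)) := by
        have i1 := intervalIntegral.integral_add_adjacent_intervals
          (hgc.intervalIntegrable (μ := volume) 0 t)
          (hgc.intervalIntegrable (μ := volume) t ((n : ℝ) + 1 + t))
        have i2 := intervalIntegral.integral_add_adjacent_intervals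
          (hgc.intervalIntegrable (μ := volume) 0 ((n : ℝ) + 1))
          (hgc.intervalIntegrable (μ := volume) ((n : ℝ) + 1) ((n : ℝ) + 1 + t))
        linarith
      rw [e5]
      have b1 : ‖∫ s in ((n : ℝ) + 1)..((n : ℝ) + 1 + t), g (φ s (x n))‖ ≤ ‖g‖ * |t| := by
        have := intervalIntegral.norm_integral_le_of_norm_le_const
          (a := (n : ℝ) + 1) (b := (n : ℝ) + 1 + t) (C := ‖g‖)
          (f := fun s => g (φ s (x n))) fun s _ => g.norm_coe_le_norm _
        rwa [add_sub_cancel_left] at this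
      have b2 : ‖∫ s in (0 : ℝ)..t, g (φ s (x n))‖ ≤ ‖g‖ * |t| := by
        have := intervalIntegral.norm_integral_le_of_norm_le_const
          (a := (0 : ℝ)) (b := t) (C := ‖g‖)
          (f := fun s => g (φ s (x n))) fun s _ => g.norm_coe_le_norm _
        rwa [sub_zero] at this
      calc _ ≤ ‖∫ s in ((n : ℝ) + 1)..((n : ℝ) + 1 + t), g (φ s (x n))‖
            + ‖∫ s in (0 : ℝ)..t, g (φ s (x n))‖ := norm_sub_le _ _
        _ ≤ 2 * |t| * ‖g‖ := by linarith
    have l3 := l1.sub l2
    have := tendsto_nhds_unique l3 hdiff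
    have h5 : ∫ y, gt y ∂(μ : Measure S) = ∫ y, g y ∂(μ : Measure S) := by linarith
    exact h5
  have hμE := hE μ inferInstance hinv
  have hz : ∫ y, χ y ∂(μ : Measure S) = 0 := by
    refine integral_eq_zero_of_ae ?_
    have : ∀ᵐ y ∂(μ : Measure S), y ∈ E := by
      rw [ae_iff]
      exact hμE
    filter_upwards [this] with y hy
    exact hχE y hy
  let χb : S →ᵇ ℝ := BoundedContinuousFunction.mkOfCompact ⟨χ, hχ⟩
  have l := hlim χb
  have hle : ∀ n, η ≤ ∫ y, χb y ∂(μs n : Measure S) := by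
    intro n
    have e1 : ∫ y, χb y ∂(μs n : Measure S)
        = ((n : ℝ) + 1)⁻¹ * ∫ s in (0 : ℝ)..((n : ℝ) + 1), χ (φ s (x n)) := hint n χ hχ
    rw [e1, le_inv_mul_iff₀ (hTp n), mul_comm]
    exact (hx n).le
  have h6 : η ≤ ∫ y, χb y ∂(μ : Measure S) :=
    ge_of_tendsto l (Eventually.of_forall hle)
  have h7 : ∫ y, χb y ∂(μ : Measure S) = ∫ y, χ y ∂(μ : Measure S) := rfl
  rw [h7, hz] at h6
  linarith

end Pool.Agent.H61.SF
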