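import Pool.Agent.H61.SF.Defs

/-!
# The coboundary that slows a flow down away from a closed invariant set

Used for MP_b11560_gt.
-/

set_option autoImplicit false

open MeasureTheory Filter Topology Set

namespace Pool.Agent.H61.SF

variable {S : Type} [TopologicalSpace S] {φ : ℝ → S → S}

/-- the additive cocycle defined by `χ` -/
noncomputable def coc (φ : ℝ → S → S) (χ : S → ℝ) (t : ℝ) (x : S) : ℝ :=
  ∫ s in (0 : ℝ)..t, χ (φ s x)

theorem coc_add (h : IsFlow φ) {χ : S → ℝ} (hχ : Continuous χ) (r t : ℝ) (x : S) :
    coc φ χ (r + t) x = coc φ χ r x + coc φ χ t (φ r x) := by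
  have hc : Continuous (fun s => χ (φ s x)) := hχ.comp (h.cont2 x)
  have h1 : coc φ χ t (φ r x) = ∫ s in r..(r + t), χ (φ s x) := by
    unfold coc
    have e : ∀ s, χ (φ s (φ r x)) = (fun s => χ (φ s x)) (s + r) := fun s => by
      simp only [h.add]
    simp only [e]
    rw [intervalIntegral.integral_comp_add_right (fun s => χ (φ s x)) r, zero_add, add_comm t r]
  rw [h1]
  unfold coc
  rw [intervalIntegral.integral_add_adjacent_intervals (hc.intervalIntegrable _ _)
    (hc.intervalIntegrable _ _)]

theorem coc_cont [LocallyCompactSpace S] (h : IsFlow φ) {χ : S → ℝ} (hχ : Continuous χ) :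
    Continuous (fun p : ℝ × S => coc φ χ p.1 p.2) := by
  unfold coc
  have hf : Continuous (Function.uncurry fun (p : ℝ × S) (s : ℝ) => χ (φ s p.2)) := by
    have h1 : Continuous (fun q : (ℝ × S) × ℝ => φ q.2 q.1.2) :=
      h.cont.comp (continuous_snd.prodMk (continuous_snd.comp continuous_fst))
    exact hχ.comp h1
  exact intervalIntegral.continuous_parametric_intervalIntegral_of_continuous hf continuous_fst

theorem exists_rho [LocallyCompactSpace S] (h : IsFlow φ) {χ : S → ℝ} (hχ : Continuous χ)
    {K T : ℝ} (hK : 0 < K) (hT : 0 < T)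
    (hsmall : ∀ x, ∫ s in (0 : ℝ)..T, χ (φ s x) ≤ (1 / (2 * K)) * T) :
    ∃ ρ : S → ℝ, Continuous ρ ∧ ∀ (x : S) (t : ℝ), 0 ≤ t →
      t / 2 + K * coc φ χ t x ≤ t + ρ (φ t x) - ρ x := by
  refine ⟨fun x => -(K / T) * ∫ r in (0 : ℝ)..T, coc φ χ r x, ?_, ?_⟩
  · have hf : Continuous (Function.uncurry fun (x : S) (r : ℝ) => coc φ χ r x) :=
      (coc_cont h hχ).comp (continuous_snd.prodMk continuous_fst)
    exact continuous_const.mul
      (intervalIntegral.continuous_parametric_intervalIntegral_of_continuous hf continuous_const)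
  · intro x t ht
    have hcx : ∀ y : S, Continuous (fun r => coc φ χ r y) := fun y =>
      (coc_cont h hχ).comp (Continuous.prodMk_left y)
    have hI : ∀ (y : S) (a b : ℝ), IntervalIntegrable (fun r => coc φ χ r y) volume a b :=
      fun y a b => (hcx y).intervalIntegrable a b
    -- first: the integral at the shifted point
    have e1 : ∫ r in (0 : ℝ)..T, coc φ χ r (φ t x)
        = (∫ r in t..(T + t), coc φ χ r x) - T * coc φ χ t x := by
      have e2 : ∀ r, coc φ χ r (φ t x) = (fun r => coc φ χ r x) (r + t) - coc φ χ t x := by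
        intro r
        have := coc_add h hχ t r x
        simp only [add_comm r t]
        linarith
      simp only [e2]
      rw [intervalIntegral.integral_sub, intervalIntegral.integral_comp_add_right
        (fun r => coc φ χ r x) t, zero_add, intervalIntegral.integral_const, sub_zero, smul_eq_mul]
      · exact ((hcx x).comp (continuous_id.add continuous_const)).intervalIntegrable _ _
      · exact intervalIntegrable_const
    have e3 : ∫ r in T..(T + t), coc φ χ r x
        = (∫ r in (0 : ℝ)..t, coc φ χ r x) + ∫ v in (0 : ℝ)..t, coc φ χ T (φ v x) := by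
      have e4 : ∫ r in T..(T + t), coc φ χ r x = ∫ v in (0 : ℝ)..t, coc φ χ (v + T) x := by
        rw [intervalIntegral.integral_comp_add_right (fun r => coc φ χ r x) T, zero_add,
          add_comm t T]
      rw [e4]
      have e5 : ∀ v, coc φ χ (v + T) x = coc φ χ v x + coc φ χ T (φ v x) := fun v =>
        coc_add h hχ v T x
      simp only [e5]
      refine intervalIntegral.integral_add (hI x 0 t) ?_
      have hc : Continuous (fun v => coc φ χ T (φ v x)) :=
        (coc_cont h hχ).comp (Continuous.prodMk continuous_const (h.cont2 x))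
      exact hc.intervalIntegrable _ _
    have e6 : ∫ v in (0 : ℝ)..t, coc φ χ T (φ v x) ≤ t * ((1 / (2 * K)) * T) := by
      have hc : Continuous (fun v => coc φ χ T (φ v x)) :=
        (coc_cont h hχ).comp (Continuous.prodMk continuous_const (h.cont2 x))
      have := intervalIntegral.integral_mono_on ht (hc.intervalIntegrable (μ := volume) 0 t)
        (intervalIntegrable_const (μ := volume) (c := (1 / (2 * K)) * T)) fun v _ => hsmall (φ v x)
      rw [intervalIntegral.integral_const, sub_zero, smul_eq_mul] at this
      exact this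
    have e7 := intervalIntegral.integral_add_adjacent_intervals (hI x 0 t) (hI x t (T + t))
    have e8 := intervalIntegral.integral_add_adjacent_intervals (hI x 0 T) (hI x T (T + t))
    have e9 : ∫ r in (0 : ℝ)..T, coc φ χ r (φ t x)
        = (∫ r in (0 : ℝ)..T, coc φ χ r x) + (∫ v in (0 : ℝ)..t, coc φ χ T (φ v x))
          - T * coc φ χ t x := by
      rw [e1]
      linarith
    simp only [e9]
    have e10 : t + -(K / T) * ((∫ r in (0 : ℝ)..T, coc φ χ r x)
        + (∫ v in (0 : ℝ)..t, coc φ χ T (φ v x)) - T * coc φ χ t x)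
        - -(K / T) * (∫ r in (0 : ℝ)..T, coc φ χ r x)
        = t + K * coc φ χ t x - (K / T) * ∫ v in (0 : ℝ)..t, coc φ χ T (φ v x) := by
      field_simp
      ring
    rw [e10]
    have e11 : (K / T) * ∫ v in (0 : ℝ)..t, coc φ χ T (φ v x)
        ≤ (K / T) * (t * ((1 / (2 * K)) * T)) := mul_le_mul_of_nonneg_left e6 (by positivity)
    have e12 : (K / T) * (t * ((1 / (2 * K)) * T)) = t / 2 := by
      field_simp
    linarith

end Pool.Agent.H61.SF
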