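import Pool.Agent.H61.SF.Conj

/-!
# Shrinking finitely many discs by a homeomorphism isotopic to the identity

Used for MP_b11560_gt.
-/

set_option autoImplicit false

open Filter Topology Set Metric

namespace Pool.Agent.H61.SF

/-! ### Gluing -/

section glue

variable {S K P : Type} [TopologicalSpace S] [TopologicalSpace K] [TopologicalSpace P]

open Classical in
/-- the map of `S` that is `R p` on the image of `K` and the identity elsewhere -/
noncomputable def gl (e : K → S) (R : P → K → K) (p : P) (x : S) : S :=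
  if h : ∃ z, e z = x then e (R p h.choose) else x

omit [TopologicalSpace S] [TopologicalSpace K] [TopologicalSpace P] in
theorem gl_mem {e : K → S} (he : Function.Injective e) (R : P → K → K) (p : P) (z : K) :
    gl e R p (e z) = e (R p z) := by
  unfold gl
  have h : ∃ w, e w = e z := ⟨z, rfl⟩
  rw [dif_pos h, he h.choose_spec]

omit [TopologicalSpace S] [TopologicalSpace K] [TopologicalSpace P] in
theorem gl_not_mem {e : K → S} (R : P → K → K) (p : P) {x : S} (hx : x ∉ range e) :
    gl e R p x = x := by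
  unfold gl
  rw [dif_neg]
  exact hx

theorem gl_cont [CompactSpace K] [CompactSpace P] [T2Space S] [T2Space P]
    {e : K → S} (hec : Continuous e) (he : Function.Injective e) {C : Set S} (hC : IsClosed C)
    (hcov : ∀ x, x ∈ range e ∨ x ∈ C) {R : P → K → K}
    (hR : Continuous (fun q : P × K => R q.1 q.2)) (hRC : ∀ p z, e z ∈ C → R p z = z) :
    Continuous (fun q : P × S => gl e R q.1 q.2) := by
  rw [continuous_iff_isClosed]
  intro F hF
  have h1 : (fun q : P × S => gl e R q.1 q.2) ⁻¹' F =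
      (Prod.map (id : P → P) e) '' {q : P × K | e (R q.1 q.2) ∈ F} ∪
        {q : P × S | q.2 ∈ C ∩ F} := by
    ext ⟨p, x⟩
    constructor
    · intro hx
      rcases hcov x with ⟨z, rfl⟩ | hxC
      · left
        refine ⟨(p, z), ?_, rfl⟩
        rw [mem_preimage] at hx
        simp only [gl_mem he] at hx
        exact hx
      · right
        refine ⟨hxC, ?_⟩
        rw [mem_preimage] at hx
        by_cases hxe : x ∈ range e
        · obtain ⟨z, rfl⟩ := hxe
          simp only [gl_mem he, hRC p z hxC] at hx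
          exact hx
        · simp only [gl_not_mem R p hxe] at hx
          exact hx
    · rintro (⟨⟨p', z⟩, hz, hpz⟩ | ⟨hxC, hxF⟩)
      · simp only [Prod.map_apply, id, Prod.mk.injEq] at hpz
        obtain ⟨rfl, rfl⟩ := hpz
        rw [mem_preimage]
        simp only [gl_mem he]
        exact hz
      · rw [mem_preimage]
        by_cases hxe : x ∈ range e
        · obtain ⟨z, rfl⟩ := hxe
          simp only [gl_mem he, hRC p z hxC]
          exact hxF
        · simp only [gl_not_mem R p hxe]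
          exact hxF
  rw [h1]
  refine IsClosed.union ?_ ((hC.inter hF).preimage continuous_snd)
  have h2 : IsClosed {q : P × K | e (R q.1 q.2) ∈ F} := hF.preimage (hec.comp hR)
  exact (h2.isCompact.image (continuous_id.prodMap hec)).isClosed

omit [TopologicalSpace S] [TopologicalSpace K] [TopologicalSpace P] in
theorem gl_bij {e : K → S} (he : Function.Injective e) {R : P → K → K} {p : P}
    (hR : Function.Bijective (R p)) : Function.Bijective (gl e R p) := by
  constructor
  · intro x y hxy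
    by_cases hx : x ∈ range e <;> by_cases hy : y ∈ range e
    · obtain ⟨z, rfl⟩ := hx
      obtain ⟨w, rfl⟩ := hy
      rw [gl_mem he, gl_mem he] at hxy
      rw [hR.1 (he hxy)]
    · obtain ⟨z, rfl⟩ := hx
      rw [gl_mem he, gl_not_mem R p hy] at hxy
      exact absurd ⟨_, hxy⟩ hy
    · obtain ⟨w, rfl⟩ := hy
      rw [gl_mem he, gl_not_mem R p hx] at hxy
      exact absurd ⟨_, hxy.symm⟩ hx
    · rwa [gl_not_mem R p hx, gl_not_mem R p hy] at hxy
  · intro y
    by_cases hy : y ∈ range e
    · obtain ⟨w, rfl⟩ := hy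
      obtain ⟨z, rfl⟩ := hR.2 w
      exact ⟨e z, gl_mem he R p z⟩
    · exact ⟨y, gl_not_mem R p hy⟩

end glue

/-! ### The radial map -/

/-- the dilation factor -/
noncomputable def psi (l t : ℝ) : ℝ := max l (min 1 (t - 1))

theorem psi_pos {l : ℝ} (hl : 0 < l) (t : ℝ) : 0 < psi l t := lt_max_of_lt_left hl

theorem psi_mono (l : ℝ) {s t : ℝ} (h : s ≤ t) : psi l s ≤ psi l t :=
  max_le_max le_rfl (min_le_min le_rfl (by linarith))

theorem psi_le_one {l : ℝ} (hl : l ≤ 1) (t : ℝ) : psi l t ≤ 1 := max_le hl (min_le_left _ _)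

theorem psi_two {l : ℝ} (hl : l ≤ 1) {t : ℝ} (ht : 2 ≤ t) : psi l t = 1 := by
  unfold psi
  rw [min_eq_left (by linarith), max_eq_right hl]

theorem psi_one {l : ℝ} (hl : 0 ≤ l) {t : ℝ} (ht : t ≤ 1) : psi l t = l := by
  unfold psi
  exact max_eq_left ((min_le_right _ _).trans (by linarith))

/-- the radial map -/
noncomputable def rad (l : ℝ) (z : ℂ) : ℂ := (psi l ‖z‖ : ℝ) • z

theorem rad_cont : Continuous (fun p : ℝ × ℂ => rad p.1 p.2) := by
  unfold rad psi
  exact (continuous_fst.max (continuous_const.min ((continuous_snd.norm).sub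
    continuous_const))).smul continuous_snd

theorem norm_rad {l : ℝ} (hl : 0 < l) (z : ℂ) : ‖rad l z‖ = psi l ‖z‖ * ‖z‖ := by
  unfold rad
  rw [norm_smul, Real.norm_eq_abs, abs_of_pos (psi_pos hl _)]

theorem norm_rad_le {l : ℝ} (hl : 0 < l) (hl1 : l ≤ 1) (z : ℂ) : ‖rad l z‖ ≤ ‖z‖ := by
  rw [norm_rad hl]
  have := psi_le_one hl1 ‖z‖
  nlinarith [norm_nonneg z]

theorem rad_inj {l : ℝ} (hl : 0 < l) : Function.Injective (rad l) := by
  have key : ∀ s t : ℝ, 0 ≤ s → s < t → psi l s * s < psi l t * t := by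
    intro s t hs hst
    have h1 := psi_mono l hst.le
    have h2 := psi_pos hl s
    nlinarith
  intro z w hzw
  have hn : psi l ‖z‖ * ‖z‖ = psi l ‖w‖ * ‖w‖ := by
    rw [← norm_rad hl, ← norm_rad hl, hzw]
  have hzw' : ‖z‖ = ‖w‖ := by
    rcases lt_trichotomy ‖z‖ ‖w‖ with h | h | h
    · exact absurd hn (key _ _ (norm_nonneg _) h).ne
    · exact h
    · exact absurd hn (key _ _ (norm_nonneg _) h).ne'
  unfold rad at hzw
  rw [hzw'] at hzw
  exact smul_right_injective ℂ (psi_pos hl ‖w‖).ne' hzw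

theorem rad_surj {l : ℝ} (hl : 0 < l) (hl1 : l ≤ 1) {w : ℂ} (hw : ‖w‖ ≤ 2) :
    ∃ z : ℂ, ‖z‖ ≤ 2 ∧ rad l z = w := by
  by_cases hw0 : w = 0
  · refine ⟨0, by simp, ?_⟩
    rw [hw0]
    unfold rad
    simp
  have hwpos : 0 < ‖w‖ := norm_pos_iff.2 hw0
  have hc : ContinuousOn (fun t : ℝ => psi l t * t) (Icc 0 2) := by
    unfold psi
    exact (((continuous_const.max (continuous_const.min (continuous_id.sub
      continuous_const)))).mul continuous_id).continuousOn
  have hiv := intermediate_value_Icc (zero_le_two (α := ℝ)) hc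
  obtain ⟨t, ht, ht2⟩ := hiv (show ‖w‖ ∈ Icc (psi l 0 * 0) (psi l 2 * 2) by
    rw [mul_zero, psi_two hl1 le_rfl, one_mul]
    exact ⟨norm_nonneg _, hw⟩)
  simp only at ht2
  refine ⟨(t / ‖w‖ : ℝ) • w, ?_, ?_⟩
  · rw [norm_smul, Real.norm_eq_abs, abs_of_nonneg (div_nonneg ht.1 hwpos.le),
      div_mul_cancel₀ _ hwpos.ne']
    exact ht.2
  · unfold rad
    rw [norm_smul, Real.norm_eq_abs, abs_of_nonneg (div_nonneg ht.1 hwpos.le),
      div_mul_cancel₀ _ hwpos.ne', smul_smul]
    have : psi l t * (t / ‖w‖) = 1 := by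
      rw [← mul_div_assoc, ht2, div_self hwpos.ne']
    rw [this, one_smul]

/-! ### The shrinking homeomorphism -/

/-- Finitely many disjoint closed discs with collars: `e i` embeds the closed disc of radius two,
the images are disjoint, and the images of the open discs of radius two are open. -/
structure IsDiscFamily {S : Type} [TopologicalSpace S] {n : ℕ} (e : Fin n → ℂ → S) : Prop where
  cont : ∀ i, ContinuousOn (e i) (closedBall 0 2)
  inj : ∀ i j, ∀ z ∈ closedBall (0 : ℂ) 2, ∀ w ∈ closedBall (0 : ℂ) 2,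
    e i z = e j w → i = j ∧ z = w
  isOpen : ∀ i, IsOpen (e i '' ball 0 2)

theorem exists_shrink {S : Type} [TopologicalSpace S] [CompactSpace S] [T2Space S] {n : ℕ}
    {e : Fin n → ℂ → S} (he : IsDiscFamily e) {l : ℝ} (hl : 0 < l) (hl1 : l ≤ 1) :
    ∃ g : S ≃ₜ S, IsotopicToId g ∧ ∀ i, ∀ z ∈ closedBall (0 : ℂ) 1,
      ∃ w ∈ closedBall (0 : ℂ) l, g (e i z) = e i w := by
  let K : Type := Fin n × closedBall (0 : ℂ) 2
  have : CompactSpace (closedBall (0 : ℂ) 2) :=
    isCompact_iff_compactSpace.1 (isCompact_closedBall _ _)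
  let E : K → S := fun q => e q.1 q.2
  have hEc : Continuous E := by
    refine continuous_prod_of_discrete_left.2 fun i => ?_
    exact (continuousOn_iff_continuous_domRestrict.1 (he.cont i))
  have hEi : Function.Injective E := by
    rintro ⟨i, z⟩ ⟨j, w⟩ h
    obtain ⟨h1, h2⟩ := he.inj i j z z.2 w w.2 h
    exact Prod.ext h1 (Subtype.ext h2)
  let C : Set S := (⋃ i, e i '' ball 0 2)ᶜ
  have hC : IsClosed C := (isOpen_iUnion he.isOpen).isClosed_compl
  let lam : unitInterval → ℝ := fun θ => 1 - (θ : ℝ) * (1 - l)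
  have hlam : ∀ θ, 0 < lam θ ∧ lam θ ≤ 1 := by
    intro θ
    have h0 : (0 : ℝ) ≤ θ := θ.2.1
    have h1 : (θ : ℝ) ≤ 1 := θ.2.2
    constructor
    · change 0 < 1 - (θ : ℝ) * (1 - l)
      nlinarith
    · change 1 - (θ : ℝ) * (1 - l) ≤ 1
      nlinarith
  let R : unitInterval → K → K := fun θ q => (q.1, ⟨rad (lam θ) q.2, by
    rw [mem_closedBall_zero_iff]
    exact (norm_rad_le (hlam θ).1 (hlam θ).2 _).trans (mem_closedBall_zero_iff.1 q.2.2)⟩)
  have hRc : Continuous (fun q : unitInterval × K => R q.1 q.2) := by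
    refine Continuous.prodMk (continuous_fst.comp continuous_snd) (Continuous.subtype_mk ?_ _)
    have h1 : Continuous (fun q : unitInterval × K => (lam q.1, ((q.2.2 : closedBall (0 : ℂ) 2) : ℂ))) := by
      refine Continuous.prodMk ?_ ?_
      · exact continuous_const.sub
          ((continuous_subtype_val.comp continuous_fst).mul continuous_const)
      · exact continuous_subtype_val.comp (continuous_snd.comp continuous_snd)
    exact rad_cont.comp h1
  have hRb : ∀ θ, Function.Bijective (R θ) := by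
    intro θ
    constructor
    · rintro ⟨i, z⟩ ⟨j, w⟩ h
      have h1 : i = j := congrArg Prod.fst h
      have h2 : rad (lam θ) z = rad (lam θ) w := congrArg (fun q : K => (q.2 : ℂ)) h
      exact Prod.ext h1 (Subtype.ext (rad_inj (hlam θ).1 h2))
    · rintro ⟨i, w⟩
      obtain ⟨z, hz, hzw⟩ := rad_surj (hlam θ).1 (hlam θ).2 (mem_closedBall_zero_iff.1 w.2)
      exact ⟨(i, ⟨z, mem_closedBall_zero_iff.2 hz⟩), Prod.ext rfl (Subtype.ext hzw)⟩
  have hRC : ∀ θ q, E q ∈ C → R θ q = q := by
    rintro θ ⟨i, z⟩ hq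
    have hz : 2 ≤ ‖(z : ℂ)‖ := by
      by_contra hcon
      push Not at hcon
      exact hq (mem_iUnion.2 ⟨i, ⟨z, mem_ball_zero_iff.2 hcon, rfl⟩⟩)
    refine Prod.ext rfl (Subtype.ext ?_)
    change rad (lam θ) z = z
    unfold rad
    rw [psi_two (hlam θ).2 hz, one_smul]
  have hcov : ∀ x, x ∈ range E ∨ x ∈ C := by
    intro x
    by_cases hx : x ∈ ⋃ i, e i '' ball 0 2
    · left
      obtain ⟨i, z, hz, rfl⟩ := mem_iUnion.1 hx
      exact ⟨(i, ⟨z, ball_subset_closedBall hz⟩), rfl⟩
    · exact Or.inr hx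
  have hG : Continuous (fun q : unitInterval × S => gl E R q.1 q.2) :=
    gl_cont hEc hEi hC hcov hRc hRC
  let G : unitInterval → (S ≃ₜ S) := fun θ =>
    Continuous.homeoOfEquivCompactToT2 (f := Equiv.ofBijective _ (gl_bij hEi (hRb θ)))
      (hG.comp (Continuous.prodMk_right θ))
  refine ⟨G 1, ⟨G, hG, fun x => ?_, fun x => rfl⟩, fun i z hz => ?_⟩
  · change gl E R 0 x = x
    by_cases hx : x ∈ range E
    · obtain ⟨⟨i, z⟩, rfl⟩ := hx
      rw [gl_mem hEi]
      congr 1
      refine Prod.ext rfl (Subtype.ext ?_)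
      change rad (1 - ((0 : unitInterval) : ℝ) * (1 - l)) z = z
      unfold rad
      have : psi (1 - ((0 : unitInterval) : ℝ) * (1 - l)) ‖(z : ℂ)‖ = 1 := by
        unfold psi
        rw [Set.Icc.coe_zero, zero_mul, sub_zero]
        exact max_eq_left (min_le_left _ _)
      rw [this, one_smul]
    · exact gl_not_mem R 0 hx
  · have hz2 : z ∈ closedBall (0 : ℂ) 2 := closedBall_subset_closedBall one_le_two hz
    refine ⟨rad l z, ?_, ?_⟩
    · rw [mem_closedBall_zero_iff, norm_rad hl]
      have h1 := mem_closedBall_zero_iff.1 hz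
      rw [psi_one hl.le h1]
      nlinarith
    · change gl E R 1 (E (i, ⟨z, hz2⟩)) = _
      rw [gl_mem hEi]
      change e i (rad (1 - ((1 : unitInterval) : ℝ) * (1 - l)) z) = e i (rad l z)
      rw [Set.Icc.coe_one, one_mul, sub_sub_cancel]

end Pool.Agent.H61.SF
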