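import Pool.Agent.H61.SF.Drift
import Pool.Agent.H61.SF.AlongClose
import Pool.Agent.H61.SF.Shrink

/-!
# Flows on a quotient and their lifts

Used for MP_b11560_gt.
-/

set_option autoImplicit false

open MeasureTheory Filter Topology Set Metric

namespace Pool.Agent.H61.SF

section quot

variable {G X : Type} [MetricSpace X] [Group G] [MulAction G X]

theorem quot_prod [ContinuousConstSMul G X] {Y : Type} [TopologicalSpace Y]
    {F : ℝ × Quotient (MulAction.orbitRel G X) → Y}
    (hF : Continuous (fun p : ℝ × X => F (p.1, Quotient.mk _ p.2))) : Continuous F := by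
  have hopen : IsOpenMap (Quotient.mk (MulAction.orbitRel G X)) :=
    isOpenMap_quotient_mk'_mul
  have hq : IsQuotientMap (Prod.map (id : ℝ → ℝ) (Quotient.mk (MulAction.orbitRel G X))) :=
    (IsOpenMap.id.prodMap hopen).isQuotientMap
      (continuous_id.prodMap continuous_quotient_mk')
      (Function.surjective_id.prodMap Quotient.mk_surjective)
  rw [hq.continuous_iff]
  exact hF

theorem quot_compact {K : Set X} (hK : IsCompact K) (hcov : ∀ x : X, ∃ g : G, g • x ∈ K) :
    CompactSpace (Quotient (MulAction.orbitRel G X)) := by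
  refine ⟨?_⟩
  have h1 : (Quotient.mk (MulAction.orbitRel G X)) '' K = univ := by
    refine eq_univ_of_forall fun x => ?_
    induction x using Quotient.inductionOn with
    | _ x =>
      obtain ⟨g, hg⟩ := hcov x
      refine ⟨g • x, hg, Quotient.sound ⟨g, rfl⟩⟩
  rw [← h1]
  exact hK.image continuous_quotient_mk'

end quot

/-- The iterates of the lift. -/
theorem lift_iter {S X : Type} [TopologicalSpace X] {Φ : ℝ → X → X}
    (hΦ : IsFlow Φ) {p : X → S} {f : S → S} {τ : S → ℝ} {F : X → X}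
    (hF : ∀ z, F z = Φ (τ (p z)) z) (hfF : ∀ z, f (p z) = p (F z)) (n : ℕ) (z : X) :
    F^[n] z = Φ (tk f τ n (p z)) z ∧ f^[n] (p z) = p (F^[n] z) := by
  induction n with
  | zero => exact ⟨(hΦ.zero z).symm, rfl⟩
  | succ n ih =>
    rw [Function.iterate_succ_apply', Function.iterate_succ_apply', ih.2, hfF]
    refine ⟨?_, rfl⟩
    change F (F^[n] z) = Φ (tk f τ n (p z) + τ (f^[n] (p z))) z
    rw [hF, ← ih.2, add_comm, hΦ.add, ← ih.1]

/-- Non-spreading with a fixed point: the displacement is sublinear. -/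
theorem disp_of_ns {G X : Type} [MetricSpace X] [Group G] [MulAction G X]
    (hiso : ∀ (g : G) (x y : X), dist (g • x) (g • y) = dist x y) {F : X → X} (hFc : Continuous F)
    (hFG : ∀ (g : G) (x : X), F (g • x) = g • F x) {z₀ : X} (hz : F z₀ = z₀)
    {D : Set X} (hD : IsCompact D) (hcov : ∀ x : X, ∃ g : G, g • x ∈ D)
    (hlim : Tendsto (fun n : ℕ => diam (F^[n] '' D) / (n : ℝ)) atTop (𝓝 0)) {δ : ℝ} (hδ : 0 < δ) :
    ∃ C : ℝ, ∀ (n : ℕ) (z : X), dist (F^[n] z) z ≤ δ * n + C := by
  have hit : ∀ (n : ℕ) (g : G) (x : X), F^[n] (g • x) = g • F^[n] x := by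
    intro n g x
    induction n with
    | zero => rfl
    | succ n ih => rw [Function.iterate_succ_apply', ih, hFG, ← Function.iterate_succ_apply' F]
  obtain ⟨g₀, hg₀⟩ := hcov z₀
  have hfix : ∀ n : ℕ, F^[n] (g₀ • z₀) = g₀ • z₀ := by
    intro n
    rw [hit, Function.iterate_fixed hz]
  obtain ⟨N, hN⟩ := eventually_atTop.1 (hlim.eventually_lt_const hδ)
  have hdiam : ∀ n : ℕ, diam (F^[n] '' D) ≤ δ * n + ∑ k ∈ Finset.range (N + 1),
      diam (F^[k] '' D) := by
    intro n
    by_cases hn : n < N + 1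
    · have h1 := Finset.single_le_sum (f := fun k => diam (F^[k] '' D))
        (fun k _ => diam_nonneg) (Finset.mem_range.2 hn)
      have h2 : 0 ≤ δ * (n : ℝ) := by positivity
      linarith
    · have h1 := hN n (by omega)
      have hn0 : (0 : ℝ) < n := by
        have : 0 < n := by omega
        exact_mod_cast this
      rw [div_lt_iff₀ hn0] at h1
      have h2 : 0 ≤ ∑ k ∈ Finset.range (N + 1), diam (F^[k] '' D) :=
        Finset.sum_nonneg fun k _ => diam_nonneg
      linarith
  refine ⟨∑ k ∈ Finset.range (N + 1), diam (F^[k] '' D) + diam D, fun n z => ?_⟩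
  obtain ⟨g, hg⟩ := hcov z
  have h1 : dist (F^[n] z) z = dist (F^[n] (g • z)) (g • z) := by
    rw [hit, hiso]
  have hbd : Bornology.IsBounded (F^[n] '' D) := (hD.image (hFc.iterate n)).isBounded
  have h2 : dist (F^[n] (g • z)) (F^[n] (g₀ • z₀)) ≤ diam (F^[n] '' D) :=
    dist_le_diam_of_mem hbd ⟨_, hg, rfl⟩ ⟨_, hg₀, rfl⟩
  have h3 : dist (g₀ • z₀) (g • z) ≤ diam D := dist_le_diam_of_mem hD.isBounded hg₀ hg
  rw [hfix] at h2
  have h4 := dist_triangle (F^[n] (g • z)) (g₀ • z₀) (g • z)
  have h5 := hdiam n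
  rw [h1]
  linarith

/-- Invariance of the cocycles under conjugation. -/
theorem tk_conj {S : Type} [TopologicalSpace S] (g f : S ≃ₜ S) (τ : S → ℝ) (n : ℕ) (x : S) :
    tk (fun y => g (f (g.symm y))) (fun y => τ (g.symm y)) n x = tk f τ n (g.symm x) ∧
      (fun y => g (f (g.symm y)))^[n] x = g (f^[n] (g.symm x)) := by
  induction n with
  | zero => exact ⟨rfl, (g.apply_symm_apply x).symm⟩
  | succ n ih =>
    rw [Function.iterate_succ_apply', Function.iterate_succ_apply', ih.2]
    refine ⟨?_, by simp⟩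
    change tk (fun y => g (f (g.symm y))) (fun y => τ (g.symm y)) n x
      + τ (g.symm ((fun y => g (f (g.symm y)))^[n] x)) = tk f τ n (g.symm x)
      + τ (f^[n] (g.symm x))
    rw [ih.1, ih.2, g.symm_apply_apply]

end Pool.Agent.H61.SF
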